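import Pool.Agent.W547.KB.Weil
import Pool.Agent.H204R3.CM.Coef

/-!
# Systems of classes on abelian varieties of CM type
-/

set_option autoImplicit false
set_option linter.unusedSectionVars false
set_option linter.unusedVariables false

namespace Pool.Agent.R937.HZ

open NumberField Pool.Agent.H204R3.CM Pool.Agent.W547.KB Equiv Module

noncomputable section

/-- A system of classes on abelian varieties of CM type, which contains the classes of degree zero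
and the Hodge classes of degree two and is stable under linear combinations, cup products, pull-backs
and push-forwards. -/
structure CS where
  /-- the classes -/
  A : (X : CMAV) → (κ : Type) → (X.H1 [⋀^κ]→ₗ[ℚ] ℚ) → Prop
  unit : ∀ {X : CMAV} {κ : Type} [IsEmpty κ] (f : X.H1 [⋀^κ]→ₗ[ℚ] ℚ), A X κ f
  divisor : ∀ {X : CMAV} {κ : Type} (_ : Nat.card κ = 2) (f : X.H1 [⋀^κ]→ₗ[ℚ] ℚ)
    (_ : IsHodge X.per f), A X κ f
  zero : ∀ (X : CMAV) (κ : Type), A X κ 0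
  add : ∀ {X : CMAV} {κ : Type} (f g : X.H1 [⋀^κ]→ₗ[ℚ] ℚ) (_ : A X κ f) (_ : A X κ g), A X κ (f + g)
  smul : ∀ {X : CMAV} {κ : Type} (a : ℚ) (f : X.H1 [⋀^κ]→ₗ[ℚ] ℚ) (_ : A X κ f), A X κ (a • f)
  reindex : ∀ {X : CMAV} {κ κ' : Type} (e : κ ≃ κ') (f : X.H1 [⋀^κ]→ₗ[ℚ] ℚ) (_ : A X κ f),
    A X κ' (f.domDomCongr e)
  cup : ∀ {X : CMAV} {κ κ' : Type} [Fintype κ] [DecidableEq κ] [Fintype κ'] [DecidableEq κ']
    (f : X.H1 [⋀^κ]→ₗ[ℚ] ℚ) (g : X.H1 [⋀^κ']→ₗ[ℚ] ℚ) (_ : A X κ f) (_ : A X κ' g)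
    (h : X.H1 [⋀^κ ⊕ κ']→ₗ[ℚ] ℚ)
    (_ : ∀ v : κ ⊕ κ' → X.H1, h v = ∑ σ : Equiv.Perm (κ ⊕ κ'), ((Equiv.Perm.sign σ : ℤ) : ℚ) *
        (f (fun k => v (σ (Sum.inl k))) * g (fun k => v (σ (Sum.inr k))))), A X (κ ⊕ κ') h
  pull : ∀ {X Y : CMAV} {κ : Type} (h : X.H1 →ₗ[ℚ] Y.H1) (_ : IsHom X Y h)
    (f : Y.H1 [⋀^κ]→ₗ[ℚ] ℚ) (_ : A Y κ f), A X κ (f.compLinearMap h)
  push : ∀ {X Y : CMAV} {κ κ' : Type} (b : Module.Basis κ' ℚ Y.H1)
    (f : (X.prod Y).H1 [⋀^κ ⊕ κ']→ₗ[ℚ] ℚ) (_ : A (X.prod Y) (κ ⊕ κ') f)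
    (g : X.H1 [⋀^κ]→ₗ[ℚ] ℚ)
    (_ : ∀ v : κ → X.H1,
        g v = f (Sum.elim (fun k => X.pair Y (v k) 0) (fun k => X.pair Y 0 (b k)))),
    A X κ g

variable (𝒞 : CS)

/-- The Hodge classes of degree four on products of at most four abelian varieties with complex
multiplication by fields of degree at most six belong to the system. -/
def Four : Prop :=
  ∀ C : CMAV, Fintype.card C.I ≤ 4 → (∀ i, finrank ℚ (C.factor i).E ≤ 6) →
    ∀ f : C.H1 [⋀^Fin 4]→ₗ[ℚ] ℚ, IsHodge C.per f → 𝒞.A C (Fin 4) f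

variable {𝒞} {L : Type} [Field L] [NumberField L] {X Y : CMAV} {κ κ' : Type}

/-- The span over `L` of the generated classes. -/
def LSp (𝒞 : CS) (L : Type) [Field L] [NumberField L] (X : CMAV) (κ : Type) :
    Submodule L ((κ → X.H1) → L) :=
  Submodule.span L {g | ∃ f : X.H1 [⋀^κ]→ₗ[ℚ] ℚ, 𝒞.A X κ f ∧ g = fun v => ((f v : ℚ) : L)}

theorem LSp.of_gen {f : X.H1 [⋀^κ]→ₗ[ℚ] ℚ} (hf : 𝒞.A X κ f) :
    (fun v => ((f v : ℚ) : L)) ∈ LSp 𝒞 L X κ :=
  Submodule.subset_span ⟨f, hf, rfl⟩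

theorem LSp.unit [IsEmpty κ] (F : (κ → X.H1) → L) : F ∈ LSp 𝒞 L X κ := by
  have h1 : F = F (fun k => isEmptyElim k) • (fun v =>
      (((AlternatingMap.constOfIsEmpty ℚ X.H1 κ (1 : ℚ)) v : ℚ) : L)) := by
    funext v
    have h2 : v = fun k => isEmptyElim k := funext fun k => isEmptyElim k
    subst h2
    simp
  rw [h1]
  exact Submodule.smul_mem _ _ (LSp.of_gen (𝒞.unit _))

theorem LSp.reindex (e : κ ≃ κ') {F : (κ → X.H1) → L} (hF : F ∈ LSp 𝒞 L X κ) :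
    (fun v : κ' → X.H1 => F (fun k => v (e k))) ∈ LSp 𝒞 L X κ' := by
  induction hF using Submodule.span_induction with
  | mem F hF =>
    obtain ⟨f, hf, rfl⟩ := hF
    exact LSp.of_gen (𝒞.reindex e f hf)
  | zero => exact Submodule.zero_mem _
  | add F G _ _ hF hG => exact Submodule.add_mem _ hF hG
  | smul c F _ hF => exact Submodule.smul_mem _ c hF

theorem LSp.pull {h : X.H1 →ₗ[ℚ] Y.H1} (hh : IsHom X Y h) {F : (κ → Y.H1) → L}
    (hF : F ∈ LSp 𝒞 L Y κ) : (fun v : κ → X.H1 => F (fun k => h (v k))) ∈ LSp 𝒞 L X κ := by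
  induction hF using Submodule.span_induction with
  | mem F hF =>
    obtain ⟨f, hf, rfl⟩ := hF
    exact LSp.of_gen (𝒞.pull h hh f hf)
  | zero => exact Submodule.zero_mem _
  | add F G _ _ hF hG => exact Submodule.add_mem _ hF hG
  | smul c F _ hF => exact Submodule.smul_mem _ c hF

theorem LSp.cup [Fintype κ] [DecidableEq κ] [Fintype κ'] [DecidableEq κ']
    {F : (κ → X.H1) → L} {G : (κ' → X.H1) → L} (hF : F ∈ LSp 𝒞 L X κ) (hG : G ∈ LSp 𝒞 L X κ') :
    cupFun F G ∈ LSp 𝒞 L X (κ ⊕ κ') := by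
  induction hF using Submodule.span_induction with
  | mem F hF =>
    obtain ⟨f, hf, rfl⟩ := hF
    induction hG using Submodule.span_induction with
    | mem G hG =>
      obtain ⟨g, hg, rfl⟩ := hG
      have h1 : cupFun (fun v => ((f v : ℚ) : L)) (fun v => ((g v : ℚ) : L)) =
          fun v => ((cupAlt f g v : ℚ) : L) := by
        funext v
        rw [cupAlt_apply]
        unfold cupFun
        push_cast
        rfl
      rw [h1]
      exact LSp.of_gen (𝒞.cup f g hf hg _ (cupAlt_apply f g))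
    | zero =>
      have h1 : cupFun (fun v => ((f v : ℚ) : L)) (0 : (κ' → X.H1) → L) = 0 := by
        funext v
        simp [cupFun]
      rw [h1]
      exact Submodule.zero_mem _
    | add G G' _ _ hG hG' =>
      have h1 : cupFun (fun v => ((f v : ℚ) : L)) (G + G') =
          cupFun (fun v => ((f v : ℚ) : L)) G + cupFun (fun v => ((f v : ℚ) : L)) G' := by
        funext v
        simp only [cupFun, Pi.add_apply, mul_add, Finset.sum_add_distrib]
      rw [h1]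
      exact Submodule.add_mem _ hG hG'
    | smul c G _ hG =>
      have h1 : cupFun (fun v => ((f v : ℚ) : L)) (c • G) =
          c • cupFun (fun v => ((f v : ℚ) : L)) G := by
        funext v
        simp only [cupFun, Pi.smul_apply, smul_eq_mul, Finset.mul_sum]
        exact Finset.sum_congr rfl fun σ _ => by ring
      rw [h1]
      exact Submodule.smul_mem _ c hG
  | zero =>
    have h1 : cupFun (0 : (κ → X.H1) → L) G = 0 := by
      funext v
      simp [cupFun]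
    rw [h1]
    exact Submodule.zero_mem _
  | add F F' _ _ hF hF' =>
    have h1 : cupFun (F + F') G = cupFun F G + cupFun F' G := by
      funext v
      simp only [cupFun, Pi.add_apply, mul_add, add_mul, Finset.sum_add_distrib]
    rw [h1]
    exact Submodule.add_mem _ hF hF'
  | smul c F _ hF =>
    have h1 : cupFun (c • F) G = c • cupFun F G := by
      funext v
      simp only [cupFun, Pi.smul_apply, smul_eq_mul, Finset.mul_sum]
      exact Finset.sum_congr rfl fun σ _ => by ring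
    rw [h1]
    exact Submodule.smul_mem _ c hF

theorem LSp.push (b : Module.Basis κ' ℚ Y.H1) {F : (κ ⊕ κ' → (X.prod Y).H1) → L}
    (hF : F ∈ LSp 𝒞 L (X.prod Y) (κ ⊕ κ')) :
    (fun v : κ → X.H1 => F (Sum.elim (fun k => X.pair Y (v k) 0) (fun k => X.pair Y 0 (b k)))) ∈
      LSp 𝒞 L X κ := by
  induction hF using Submodule.span_induction with
  | mem F hF =>
    obtain ⟨f, hf, rfl⟩ := hF
    exact LSp.of_gen (f := pushAlt b f) (𝒞.push b f hf _ (fun v => rfl))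
  | zero => exact Submodule.zero_mem _
  | add F G _ _ hF hG => exact Submodule.add_mem _ hF hG
  | smul c F _ hF => exact Submodule.smul_mem _ c hF

/-- Descent. -/
theorem gen_of_LSp [Fintype κ] {f : X.H1 [⋀^κ]→ₗ[ℚ] ℚ}
    (hf : (fun v => ((f v : ℚ) : L)) ∈ LSp 𝒞 L X κ) : 𝒞.A X κ f := by
  let S : Set ((κ → X.H1) → ℚ) := {g | ∃ f : X.H1 [⋀^κ]→ₗ[ℚ] ℚ, 𝒞.A X κ f ∧ g = fun v => f v}
  have h1 : (fun v => ((f v : ℚ) : L)) ∈
      Submodule.span L {g : (κ → X.H1) → L | ∃ s ∈ S, g = fun x => ((s x : ℚ) : L)} := by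
    refine Submodule.span_mono ?_ hf
    rintro g ⟨f, hf, rfl⟩
    exact ⟨fun v => f v, ⟨f, hf, rfl⟩, rfl⟩
  have h2 := span_descent S (fun v => f v) h1
  have h3 : ∀ g ∈ Submodule.span ℚ S, ∃ f : X.H1 [⋀^κ]→ₗ[ℚ] ℚ, 𝒞.A X κ f ∧ g = fun v => f v := by
    intro g hg
    induction hg using Submodule.span_induction with
    | mem g hg => exact hg
    | zero => exact ⟨0, 𝒞.zero X κ, rfl⟩
    | add g g' _ _ h h' =>
      obtain ⟨f, hf, rfl⟩ := h
      obtain ⟨f', hf', rfl⟩ := h'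
      exact ⟨f + f', 𝒞.add f f' hf hf', rfl⟩
    | smul c g _ h =>
      obtain ⟨f, hf, rfl⟩ := h
      exact ⟨c • f, 𝒞.smul c f hf, rfl⟩
  obtain ⟨f', hf', h4⟩ := h3 _ h2
  have h5 : f = f' := AlternatingMap.ext fun v => congrFun h4 v
  rw [h5]
  exact hf'


variable [IsCMField L] [IsGalois ℚ L] [Fintype κ] [DecidableEq κ] [Fintype κ'] [DecidableEq κ']

theorem mono_mem_of_trForm (I : κ → Wt X L) (h : ∀ α : L, 𝒞.A X κ (trForm α I)) :
    mono I ∈ LSp 𝒞 L X κ := by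
  obtain ⟨n, a, b, hab⟩ := exists_dual L
  have h1 : mono I = ∑ i, b i • (fun v : κ → X.H1 => ((trForm (a i) I v : ℚ) : L)) := by
    funext v
    rw [Finset.sum_apply]
    exact hab (mono I v)
  rw [h1]
  exact Submodule.sum_mem _ fun i _ => Submodule.smul_mem _ _ (LSp.of_gen (h (a i)))

/-- All monomials with the given types are in the span of the generated classes. -/
def Alg (𝒞 : CS) (j : L →+* ℂ) (s : κ → Set (L ≃ₐ[ℚ] L)) : Prop :=
  ∀ (X : CMAV) (I : κ → Wt X L), (∀ k, St j (I k) = s k) → mono I ∈ LSp 𝒞 L X κ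

theorem alg_of_can (j : L →+* ℂ) (s : κ → Set (L ≃ₐ[ℚ] L)) (hs : ∀ k, IsHalf (s k))
    (h : mono (canI j s hs) ∈ LSp 𝒞 L (can j s hs) κ) : Alg 𝒞 j s := by
  intro X I hI
  let hh : X.H1 →ₗ[ℚ] (can j s hs).H1 := LinearMap.pi (fun k => evLin (I k))
  have hmem : ∀ (k : κ) (ψ : L →+* ℂ), ψ ∈ typeOf j (s k) →
      ψ.comp (I k).2 ∈ (X.factor (I k).1).Φ := by
    rintro k ψ ⟨σ, hσ, rfl⟩
    rw [← hI k] at hσ
    exact hσ
  let H : X.Tan →ₗ[ℂ] (can j s hs).Tan :=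
    LinearMap.pi fun k => LinearMap.pi fun ψ =>
      (LinearMap.proj (⟨ψ.1.comp (I k).2, hmem k ψ.1 ψ.2⟩ : (X.factor (I k).1).Φ)).comp
        (LinearMap.proj (R := ℂ) (φ := fun i => (X.factor i).Φ → ℂ) (I k).1)
  have hom : IsHom X (can j s hs) hh := ⟨H, fun w => rfl⟩
  have h1 := LSp.pull hom h
  rwa [mono_pull hh I (canI j s hs) (fun w k => rfl)] at h1

theorem alg_reindex {j : L →+* ℂ} (e : κ ≃ κ') {s : κ → Set (L ≃ₐ[ℚ] L)}
    {s' : κ' → Set (L ≃ₐ[ℚ] L)} (hs : Alg 𝒞 j s) (h : ∀ k, s' (e k) = s k) : Alg 𝒞 j s' := by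
  intro X I hI
  have h1 := hs X (fun k => I (e k)) (fun k => by rw [hI, h])
  have h2 := LSp.reindex e h1
  rw [mono_reindex] at h2
  simpa using h2

theorem alg_sum {j : L →+* ℂ} {s : κ → Set (L ≃ₐ[ℚ] L)} {s' : κ' → Set (L ≃ₐ[ℚ] L)}
    (hs : Alg 𝒞 j s) (hs' : Alg 𝒞 j s') : Alg 𝒞 j (Sum.elim s s') := by
  intro X I hI
  have h1 := hs X (fun k => I (Sum.inl k)) (fun k => hI (Sum.inl k))
  have h2 := hs' X (fun k => I (Sum.inr k)) (fun k => hI (Sum.inr k))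
  have h3 := LSp.cup h1 h2
  rw [mono_cup] at h3
  have h4 : (Fintype.card (Perm κ) : L) * (Fintype.card (Perm κ') : L) ≠ 0 := by
    rw [← Nat.cast_mul]
    exact Nat.cast_ne_zero.2 (Nat.mul_ne_zero Fintype.card_ne_zero Fintype.card_ne_zero)
  have h5 := Submodule.smul_mem _ (((Fintype.card (Perm κ) : L) * (Fintype.card (Perm κ') : L))⁻¹) h3
  rw [smul_smul, inv_mul_cancel₀ h4, one_smul] at h5
  have h6 : Sum.elim (fun k => I (Sum.inl k)) (fun k => I (Sum.inr k)) = I := by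
    funext s
    cases s <;> rfl
  rwa [h6] at h5

theorem alg_empty [IsEmpty κ] (j : L →+* ℂ) (s : κ → Set (L ≃ₐ[ℚ] L)) : Alg 𝒞 j s :=
  fun X I hI => LSp.unit _

theorem alg_two (j : L →+* ℂ) (hκ : Nat.card κ = 2) {s : κ → Set (L ≃ₐ[ℚ] L)}
    (hs : Balanced s) : Alg 𝒞 j s := by
  intro X I hI
  have h1 : (fun k => St j (I k)) = s := funext hI
  refine mono_mem_of_trForm I fun α => 𝒞.divisor hκ _ ?_
  exact isHodge_trForm j I (by rw [h1]; exact hs) α

theorem alg_pair (j : L →+* ℂ) (S : Set (L ≃ₐ[ℚ] L)) : Alg 𝒞 j ![S, Sᶜ] := by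
  refine alg_two j (by simp) fun σ => ?_
  by_cases h : σ ∈ S <;> simp [Fin.sum_univ_two, h]

theorem alg_split {j : L →+* ℂ} {s : κ → Set (L ≃ₐ[ℚ] L)} (a b : κ) (hab : a ≠ b)
    (hs : s b = (s a)ᶜ) (h : Alg 𝒞 j (fun x : {x : κ // x ≠ a ∧ x ≠ b} => s x.1)) : Alg 𝒞 j s := by
  refine alg_reindex (splitTwo a b hab) (alg_sum h (alg_pair j (s a))) ?_
  rintro (x | x)
  · rfl
  · fin_cases x
    · rfl
    · exact hs

/-- Unions of pairs. -/
theorem alg_pairs (j : L →+* ℂ) (n : ℕ) : ∀ (κ : Type) [Fintype κ] [DecidableEq κ],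
    Fintype.card κ = n → ∀ (s : κ → Set (L ≃ₐ[ℚ] L)) (inv : κ → κ), (∀ k, inv (inv k) = k) →
    (∀ k, inv k ≠ k) → (∀ k, s (inv k) = (s k)ᶜ) → Alg 𝒞 j s := by
  induction n using Nat.strong_induction_on with
  | _ n ih =>
    intro κ _ _ hn s inv hinv hne hs
    rcases isEmpty_or_nonempty κ with h | ⟨⟨a⟩⟩
    · exact alg_empty j s
    · have hab : a ≠ inv a := (hne a).symm
      have hcard := card_split a (inv a) hab
      refine alg_split a (inv a) hab (hs a) ?_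
      refine ih _ (by omega) {x : κ // x ≠ a ∧ x ≠ inv a} rfl _
        (fun x => ⟨inv x.1, fun h => x.2.2 (by rw [← hinv x.1, h]),
          fun h => x.2.1 (by rw [← hinv x.1, h, hinv])⟩) ?_ ?_ ?_
      · intro x
        exact Subtype.ext (hinv x.1)
      · intro x h
        exact hne x.1 (congrArg Subtype.val h)
      · intro x
        exact hs x.1


theorem alg_cancel (j : L →+* ℂ) {s : κ → Set (L ≃ₐ[ℚ] L)} (hs : ∀ k, IsHalf (s k))
    {S : Set (L ≃ₐ[ℚ] L)} (hS : IsHalf S) (h : Alg 𝒞 j (Sum.elim s ![S, Sᶜ])) : Alg 𝒞 j s := by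
  classical
  let q : (L ≃ₐ[ℚ] L) → Set (L ≃ₐ[ℚ] L) := fun σ => {τ | τ * σ ∈ S}
  have hq : ∀ σ, q (cc L * σ) = (q σ)ᶜ := by
    intro σ
    ext τ
    have h1 : τ * (cc L * σ) = cc L * (τ * σ) := by
      rw [← mul_assoc, ← mul_assoc, cc_comm j]
    change τ * (cc L * σ) ∈ S ↔ ¬ (τ * σ ∈ S)
    rw [h1, hS (τ * σ), not_not]
  have hq1 : q 1 = S := by
    ext τ
    change τ * 1 ∈ S ↔ _
    rw [mul_one]
  have hqc : q (cc L) = Sᶜ := by
    rw [← hq1, ← hq 1, mul_one]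
  have hne : (1 : L ≃ₐ[ℚ] L) ≠ cc L := fun h => cc_ne h.symm
  -- the other weights of the factor
  have h1 : Alg 𝒞 j (fun σ : {σ : L ≃ₐ[ℚ] L // σ ≠ 1 ∧ σ ≠ cc L} => q σ.1) := by
    refine alg_pairs j _ _ rfl _ (fun σ => ⟨cc L * σ.1, fun h => σ.2.2 ?_, fun h => σ.2.1 ?_⟩)
      ?_ ?_ ?_
    · exact mul_left_cancel (a := cc L) (h.trans cc_cc.symm)
    · exact mul_left_cancel (a := cc L) (by rw [h, mul_one])
    · intro σ
      refine Subtype.ext ?_
      change cc L * (cc L * σ.1) = σ.1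
      rw [← mul_assoc, cc_cc, one_mul]
    · intro σ h
      have h2 : cc L * σ.1 = σ.1 := congrArg Subtype.val h
      exact cc_ne (mul_right_cancel (b := σ.1) (by rw [h2, one_mul]))
    · intro σ
      exact hq σ.1
  have h2 : Alg 𝒞 j (Sum.elim s q) := by
    refine alg_reindex (((Equiv.sumAssoc κ (Fin 2) _).trans (Equiv.sumCongr (Equiv.refl κ)
      ((Equiv.sumComm _ _).trans (splitTwo 1 (cc L) hne))))) (alg_sum h h1) ?_
    rintro ((k | k) | x)
    · rfl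
    · fin_cases k
      · exact hq1
      · exact hqc
    · rfl
  -- the variety
  refine alg_of_can j s hs ?_
  let X : CMAV := can j s hs
  let Y : CMAV := ⟨Unit, fun _ => ⟨L, typeOf j S, isCMType_typeOf j hS⟩⟩
  let I : κ ⊕ (L ≃ₐ[ℚ] L) → Wt (X.prod Y) L :=
    Sum.elim (fun k => ⟨Sum.inl k, RingHom.id L⟩) (fun σ => ⟨Sum.inr (), (σ : L →+* L)⟩)
  have hI : ∀ k, St j (I k) = Sum.elim s q k := by
    rintro (k | σ)
    · ext τ
      exact mem_typeOf j (s k) τ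
    · ext τ
      exact mem_q j S τ σ
  have h3 := h2 (X.prod Y) I hI
  have hcard : Fintype.card (Fin (finrank ℚ L)) = Fintype.card (L ≃ₐ[ℚ] L) := by
    rw [Fintype.card_fin, ← Nat.card_eq_fintype_card, IsGalois.card_aut_eq_finrank]
  let b0 : Basis (L ≃ₐ[ℚ] L) ℚ L := (Module.finBasis ℚ L).reindex (Fintype.equivOfCardEq hcard)
  let eY : L ≃ₗ[ℚ] Y.H1 := (LinearEquiv.funUnique Unit ℚ L).symm
  have h4 := LSp.push (b0.map eY) h3
  let D : L := Matrix.det (Matrix.of fun τ σ : L ≃ₐ[ℚ] L => σ (b0 τ))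
  have hD : D ≠ 0 := det_conj_ne b0
  have h5 : (fun v : κ → X.H1 => mono I (Sum.elim (fun k => X.pair Y (v k) 0)
      (fun k => X.pair Y 0 ((b0.map eY) k)))) = D • mono (canI j s hs) := by
    funext v
    rw [Pi.smul_apply, smul_eq_mul, mono_eq_det, mono_eq_det]
    have h6 : (Matrix.of fun k l => ev ((Sum.elim (fun k => X.pair Y (v k) 0)
      (fun k => X.pair Y 0 ((b0.map eY) k)) : κ ⊕ (L ≃ₐ[ℚ] L) → (X.prod Y).H1) k) (I l)) =
        Matrix.fromBlocks (Matrix.of fun k l => ev (v k) (canI j s hs l)) 0 0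
          (Matrix.of fun τ σ : L ≃ₐ[ℚ] L => σ (b0 τ)) := by
      ext k l
      rcases k with k | τ <;> rcases l with l | σ
      · rfl
      · exact map_zero (σ : L →+* L)
      · exact map_zero (RingHom.id L)
      · rfl
    rw [h6, Matrix.det_fromBlocks_zero₂₁, mul_comm]
  rw [h5] at h4
  have h7 := Submodule.smul_mem _ D⁻¹ h4
  rwa [smul_smul, inv_mul_cancel₀ hD, one_smul] at h7


end

end Pool.Agent.R937.HZ
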