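import Pool.Agent.R937.HZ.Gam2

/-!
# The relations between sign functions with stabilizers of index at most six
-/

set_option autoImplicit false
set_option linter.unusedSectionVars false
set_option linter.unusedVariables false

namespace Pool.Agent.R937.HZ

open Pool.Agent.W495.TA (IsSign)
open Pool.Agent.Y137.SF (rst mem_rst)

noncomputable section

variable {G M : Type} [Group G] [Fintype G] [AddCommGroup M] {c : G}

/-- **The relations between sign functions with stabilizers of index at most six are generated by
relations with four terms.** -/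
theorem rl_small (hcomm : ∀ g, c * g = g * c) (hc2 : c * c = 1) (D : (G → ℤ) → M)
    (hneg : ∀ f, Sm c f → D (-f) = -D f)
    (h4 : ∀ f : Fin 4 → G → ℤ, (∀ k, Sm c (f k)) → (∀ x, ∑ k, f k x = 0) → ∑ k, D (f k) = 0) :
    Rl D (Sm c) := by
  classical
  have key : ∀ n : ℕ, ∀ (ι : Type) [Fintype ι] (m : ι → ℤ) (f : ι → G → ℤ), (∀ i, Sm c (f i)) →
      (∀ g, ∑ i, m i * f i g = 0) →
      (Finset.univ.filter fun i => (rst (f i)).index ≠ 2).card = n → ∑ i, m i • D (f i) = 0 := by
    intro n
    induction n using Nat.strong_induction_on with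
    | _ n ih =>
    intro ι _ m f hf hr hn
    have hcases : ∀ i, (rst (f i)).index = 2 ∨ (rst (f i)).index = 4 ∨ (rst (f i)).index = 6 :=
      fun i => index_cases c hcomm hc2 (hf i).1 (hf i).2
    by_cases hall : ∀ i, (rst (f i)).index = 2
    · exact rl_two D (fun f h h' => hneg f ⟨h, by rw [h']; norm_num⟩) ι m f
        (fun i => ⟨(hf i).1, hall i⟩) hr
    -- the member
    obtain ⟨i0, hi0, hi04⟩ : ∃ i0, (rst (f i0)).index ≠ 2 ∧ ((rst (f i0)).index = 4 ∨
        ((rst (f i0)).index = 6 ∧ ∀ i, (rst (f i)).index ≠ 4)) := by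
      by_cases h : ∃ i, (rst (f i)).index = 4
      · obtain ⟨i, hi⟩ := h
        exact ⟨i, by rw [hi]; norm_num, Or.inl hi⟩
      · push Not at h hall
        obtain ⟨i, hi⟩ := hall
        refine ⟨i, hi, Or.inr ⟨?_, h⟩⟩
        have h1 := hcases i
        have h2 := h i
        tauto
    let N : Subgroup G := (rst (f i0)).normalCore
    let P : ι → Prop := fun i => N ≤ rst (f i)
    have hP0 : P i0 := Subgroup.normalCore_le _
    have hy : ∀ i, ∃ y : K2 c → ℤ, ¬ P i → (∀ K, ¬ N ≤ K.1 → y K = 0) ∧
        ∀ g, 3 * ∑ n : G, (if n ∈ N then f i (g * n) else 0) =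
          (Nat.card N : ℤ) * ∑ K, y K * chi K.1 g := by
      intro i
      by_cases h : P i
      · exact ⟨0, fun h' => absurd h h'⟩
      · obtain ⟨y, h1, h2⟩ := split c hcomm hc2 (f i) (hf i).1 (hf i).2 N h
        exact ⟨y, fun _ => ⟨h1, h2⟩⟩
    choose y hy using hy
    let b : K2 c → ℤ := fun K => ∑ i with ¬ P i, m i * y i K
    have hcard : (Nat.card N : ℤ) ≠ 0 := by
      exact_mod_cast Nat.card_pos.ne'
    have hP1 : ∀ i, P i → ∀ g, ∑ n : G, (if n ∈ N then f i (g * n) else 0) =
        (Nat.card N : ℤ) * f i g := by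
      intro i hi g
      rw [← Finset.sum_filter, Finset.sum_congr rfl fun n hn => hi (Finset.mem_filter.1 hn).2 g,
        Finset.sum_const, nsmul_eq_mul]
      congr 2
      rw [Nat.card_eq_fintype_card, ← Fintype.card_subtype]
    have hrel : ∀ g, 3 * ∑ i with P i, m i * f i g + ∑ K, b K * chi K.1 g = 0 := by
      intro g
      have h1 : ∑ i, m i * (3 * ∑ n : G, (if n ∈ N then f i (g * n) else 0)) = 0 := by
        have h2 : ∀ i, m i * (3 * ∑ n : G, (if n ∈ N then f i (g * n) else 0)) =
            3 * ∑ n : G, (if n ∈ N then m i * f i (g * n) else 0) := by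
          intro i
          rw [mul_left_comm, Finset.mul_sum]
          congr 1
          refine Finset.sum_congr rfl fun n _ => ?_
          rw [mul_ite, mul_zero]
        rw [Finset.sum_congr rfl fun i _ => h2 i, ← Finset.mul_sum, Finset.sum_comm]
        have h3 : ∀ n : G, ∑ i, (if n ∈ N then m i * f i (g * n) else 0) = 0 := by
          intro n
          by_cases hn : n ∈ N
          · simp only [if_pos hn]
            exact hr _
          · simp only [if_neg hn, Finset.sum_const_zero]
        rw [Finset.sum_congr rfl fun n _ => h3 n, Finset.sum_const_zero, mul_zero]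
      rw [← Finset.sum_filter_add_sum_filter_not _ P] at h1
      have h2 : ∑ i with P i, m i * (3 * ∑ n : G, (if n ∈ N then f i (g * n) else 0)) =
          (Nat.card N : ℤ) * (3 * ∑ i with P i, m i * f i g) := by
        rw [Finset.mul_sum, Finset.mul_sum]
        refine Finset.sum_congr rfl fun i hi => ?_
        rw [hP1 i (Finset.mem_filter.1 hi).2]
        ring
      have h3 : ∑ i with ¬ P i, m i * (3 * ∑ n : G, (if n ∈ N then f i (g * n) else 0)) =
          (Nat.card N : ℤ) * ∑ K, b K * chi K.1 g := by
        have h5 : ∀ K : K2 c, b K * chi K.1 g = ∑ i with ¬ P i, m i * y i K * chi K.1 g :=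
          fun K => Finset.sum_mul _ _ _
        rw [Finset.sum_congr rfl fun K _ => h5 K, Finset.sum_comm, Finset.mul_sum]
        refine Finset.sum_congr rfl fun i hi => ?_
        rw [(hy i (Finset.mem_filter.1 hi).2).2, mul_left_comm, Finset.mul_sum]
        congr 1
        exact Finset.sum_congr rfl fun K _ => by rw [mul_assoc]
      rw [h2, h3, ← mul_add] at h1
      exact (mul_eq_zero.1 h1).resolve_left hcard
    have hb : ∀ K, ∃ z, b K = 3 * z := fun K =>
      dvd_of_sum b (fun g => -∑ i with P i, m i * f i g) (fun g => by linarith [hrel g]) K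
    choose z hz using hb
    have hz0 : ∀ K, ¬ N ≤ K.1 → z K = 0 := by
      intro K hK
      have h1 : b K = 0 := Finset.sum_eq_zero fun i hi => by
        rw [(hy i (Finset.mem_filter.1 hi).2).1 K hK, mul_zero]
      rw [hz] at h1
      omega
    have hrel2 : ∀ g, ∑ i with P i, m i * f i g + ∑ K, z K * chi K.1 g = 0 := by
      intro g
      have h1 := hrel g
      have h2 : ∑ K, b K * chi K.1 g = 3 * ∑ K, z K * chi K.1 g := by
        rw [Finset.mul_sum]
        exact Finset.sum_congr rfl fun K _ => by rw [hz, mul_assoc]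
      rw [h2] at h1
      omega
    have hzs : ∀ g, ∑ K : {K : K2 c // N ≤ K.1}, z K.1 * chi K.1.1 g = ∑ K, z K * chi K.1 g := by
      intro g
      rw [← Finset.sum_subtype (Finset.univ.filter fun K : K2 c => N ≤ K.1) (by simp)
        fun K => z K * chi K.1 g, Finset.sum_filter]
      refine Finset.sum_congr rfl fun K _ => ?_
      split_ifs with h
      · rfl
      · rw [hz0 K h, zero_mul]
    have hPs : ∀ {α : Type} [AddCommMonoid α] (F : ι → α),
        ∑ i : {i // P i}, F i.1 = ∑ i with P i, F i := fun F =>
      (Finset.sum_subtype (Finset.univ.filter fun i => P i) (by simp) F).symm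
    have hPn : ∀ {α : Type} [AddCommMonoid α] (F : ι → α),
        ∑ i : {i // ¬ P i}, F i.1 = ∑ i with ¬ P i, F i := fun F =>
      (Finset.sum_subtype (Finset.univ.filter fun i => ¬ P i) (by simp) F).symm
    -- the first family
    have hA : ∑ i with P i, m i • D (f i) +
        ∑ K : {K : K2 c // N ≤ K.1}, z K.1 • D (chi K.1.1) = 0 := by
      have h1 : ∀ Q : (G → ℤ) → Prop, (∀ i, P i → Q (f i)) →
          (∀ K : K2 c, N ≤ K.1 → Q (chi K.1)) → Rl D Q → ∑ i with P i, m i • D (f i) +
            ∑ K : {K : K2 c // N ≤ K.1}, z K.1 • D (chi K.1.1) = 0 := by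
        intro Q hQ1 hQ2 hQ
        have h2 := hQ ({i // P i} ⊕ {K : K2 c // N ≤ K.1})
          (Sum.elim (fun i => m i.1) fun K => z K.1)
          (Sum.elim (fun i => f i.1) fun K => chi K.1.1) (by
          rintro (i | K)
          · exact hQ1 _ i.2
          · exact hQ2 _ K.2) (by
          intro g
          rw [Fintype.sum_sum_type]
          change ∑ i : {i // P i}, m i.1 * f i.1 g +
            ∑ K : {K : K2 c // N ≤ K.1}, z K.1 * chi K.1.1 g = 0
          rw [hPs fun i => m i * f i g, hzs, hrel2])
        rw [Fintype.sum_sum_type] at h2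
        change ∑ i : {i // P i}, m i.1 • D (f i.1) +
          ∑ K : {K : K2 c // N ≤ K.1}, z K.1 • D (chi K.1.1) = 0 at h2
        rw [hPs fun i => m i • D (f i)] at h2
        exact h2
      rcases hi04 with h2 | ⟨h2, h3⟩
      · exact h1 _ (fun i hi => ⟨(hf i).1, hi⟩) (fun K hK => ⟨isSign_chi K, by
          rw [rst_chi K.2.1]
          exact hK⟩) (gam_four hcomm hc2 D hneg h4 (hf i0).1 h2.le)
      · refine h1 _ (fun i hi => ⟨(hf i).1, hi, ?_⟩) (fun K hK => ⟨isSign_chi K, ?_, ?_⟩)
          (gam_six hcomm hc2 D hneg h4 (hf i0).1 h2)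
        · have h5 := hcases i
          have h6 := h3 i
          tauto
        · rw [rst_chi K.2.1]
          exact hK
        · rw [rst_chi K.2.1]
          exact Or.inl K.2.1
    -- the second family
    have hB : ∑ i with ¬ P i, m i • D (f i) -
        ∑ K : {K : K2 c // N ≤ K.1}, z K.1 • D (chi K.1.1) = 0 := by
      have h2 := ih _ ?_ ({i // ¬ P i} ⊕ {K : K2 c // N ≤ K.1})
        (Sum.elim (fun i => m i.1) fun K => -z K.1)
        (Sum.elim (fun i => f i.1) fun K => chi K.1.1) (by
        rintro (i | K)
        · exact hf _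
        · refine ⟨isSign_chi K.1, ?_⟩
          change (rst (chi K.1.1)).index ≤ 6
          rw [rst_chi K.1.2.1, K.1.2.1]
          norm_num) (by
        intro g
        rw [Fintype.sum_sum_type]
        change ∑ i : {i // ¬ P i}, m i.1 * f i.1 g +
          ∑ K : {K : K2 c // N ≤ K.1}, -z K.1 * chi K.1.1 g = 0
        have h3 := hr g
        rw [← Finset.sum_filter_add_sum_filter_not _ P] at h3
        have h5 := hrel2 g
        have h6 : ∑ K : {K : K2 c // N ≤ K.1}, -z K.1 * chi K.1.1 g =
            -∑ K : {K : K2 c // N ≤ K.1}, z K.1 * chi K.1.1 g := by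
          rw [← Finset.sum_neg_distrib]
          exact Finset.sum_congr rfl fun K _ => neg_mul _ _
        rw [hPn fun i => m i * f i g, h6, hzs]
        omega) rfl
      · rw [Fintype.sum_sum_type] at h2
        change ∑ i : {i // ¬ P i}, m i.1 • D (f i.1) +
          ∑ K : {K : K2 c // N ≤ K.1}, (-z K.1) • D (chi K.1.1) = 0 at h2
        rw [hPn fun i => m i • D (f i)] at h2
        rw [← h2, sub_eq_add_neg, ← Finset.sum_neg_distrib]
        congr 1
        exact Finset.sum_congr rfl fun K _ => (neg_smul _ _).symm
      · rw [← hn]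
        have h3 : i0 ∈ Finset.univ.filter fun i => (rst (f i)).index ≠ 2 := by
          rw [Finset.mem_filter]
          exact ⟨Finset.mem_univ _, hi0⟩
        refine lt_of_le_of_lt ?_ (Finset.card_erase_lt_of_mem h3)
        refine Finset.card_le_card_of_injOn (Sum.elim (fun i => i.1) fun _ => i0) ?_ ?_
        · rintro (i | K) hi
          · have h5 := (Finset.mem_filter.1 hi).2
            rw [Finset.mem_coe, Finset.mem_erase, Finset.mem_filter]
            refine ⟨?_, Finset.mem_univ _, h5⟩
            intro h6
            change i.1 = i0 at h6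
            exact i.2 (h6 ▸ hP0)
          · have h5 := (Finset.mem_filter.1 hi).2
            exfalso
            apply h5
            change (rst (chi K.1.1)).index = 2
            rw [rst_chi K.1.2.1, K.1.2.1]
        · rintro (i | K) hi (i' | K') hi' h
          · exact congrArg _ (Subtype.ext h)
          · exfalso
            apply (Finset.mem_filter.1 hi').2
            change (rst (chi K'.1.1)).index = 2
            rw [rst_chi K'.1.2.1, K'.1.2.1]
          · exfalso
            apply (Finset.mem_filter.1 hi).2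
            change (rst (chi K.1.1)).index = 2
            rw [rst_chi K.1.2.1, K.1.2.1]
          · exfalso
            apply (Finset.mem_filter.1 hi).2
            change (rst (chi K.1.1)).index = 2
            rw [rst_chi K.1.2.1, K.1.2.1]
    rw [← Finset.sum_filter_add_sum_filter_not _ P, ← add_zero (∑ x with P x, m x • D (f x) + _)]
    nth_rewrite 1 [← hA]
    have h9 : ∑ i with P i, m i • D (f i) = -∑ K : {K : K2 c // N ≤ K.1}, z K.1 • D (chi K.1.1) :=
      eq_neg_of_add_eq_zero_left hA
    have h10 : ∑ i with ¬ P i, m i • D (f i) =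
        ∑ K : {K : K2 c // N ≤ K.1}, z K.1 • D (chi K.1.1) := sub_eq_zero.1 hB
    rw [h9, h10]
    abel
  intro ι _ m f hf hr
  exact key _ ι m f hf hr rfl

end

end Pool.Agent.R937.HZ
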