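import Pool.Agent.R937.HZ.CSys
import Pool.Agent.R937.HZ.Ind
import Pool.Agent.Y137.SF.Elem

/-!
# Hodge classes on products of abelian varieties with complex multiplication by fields of degree at
most six
-/

set_option autoImplicit false
set_option linter.unusedSectionVars false
set_option linter.unusedVariables false

namespace Pool.Agent.R937.HZ

open NumberField Pool.Agent.H204R3.CM Pool.Agent.W547.KB Equiv Module
open Pool.Agent.W547.LD (stab pairOf fld emb typ mem_typ prodOf wt St_wt tr_one tr)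
open Pool.Agent.W495.TA (Closed IsSign)
open Pool.Agent.W495.TC (PairCancel dcnt IsGood)
open Pool.Agent.TH117.BL (GenD of_genD)
open Pool.Agent.Y137.SF (sg rst_sg isSign_sg dl dl_neg dcnt_eq_sum finrank_pairOf rst)

noncomputable section

variable {𝒞 : CS} {L : Type} [Field L] [NumberField L] [IsCMField L] [IsGalois ℚ L]

section four

variable (j : L →+* ℂ) (y : Fin 4 → Set (L ≃ₐ[ℚ] L)) (hy : ∀ k, IsHalf (y k))

/-- The homomorphism to the product of the abelian varieties belonging to the fixed fields, given by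
elements of `L`. -/
def toP (γ : Fin 4 → L) : (can j y hy).H1 →ₗ[ℚ] (prodOf j y hy).H1 where
  toFun w := fun k => rtr (emb (y k) 1) (γ k * w k)
  map_add' w w' := by
    funext k
    change rtr (emb (y k) 1) (γ k * (w k + w' k)) =
      rtr (emb (y k) 1) (γ k * w k) + rtr (emb (y k) 1) (γ k * w' k)
    rw [mul_add, map_add]
  map_smul' a w := by
    funext k
    change rtr (emb (y k) 1) (γ k * (a • w k)) = a • rtr (emb (y k) 1) (γ k * w k)
    rw [mul_smul_comm, rtr_smul]

/-- The tangent map on one factor. -/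
def tanP (S : Set (L ≃ₐ[ℚ] L)) (γ : L) : (typeOf j S → ℂ) →ₗ[ℂ] (typ j S → ℂ) := by
  classical
  exact LinearMap.pi fun ψ => ∑ σ : L ≃ₐ[ℚ] L,
    if h : j.comp (σ • emb S 1) = ψ.1 then
      (j (σ γ)) • (LinearMap.proj (⟨j.comp (σ : L →+* L), by
        rw [mem_typeOf, ← mem_typ j S σ]
        have h4 : j.comp (emb S σ) = ψ.1 := h
        rw [h4]
        exact ψ.2⟩ : typeOf j S)) else 0

theorem tanP_apply (S : Set (L ≃ₐ[ℚ] L)) (γ x : L) (ψ : typ j S) :
    tanP j S γ (fun φ => φ.1 x) ψ = ψ.1 (rtr (emb S 1) (γ * x)) := by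
  classical
  rw [rtr_emb (emb S 1) j ψ.1 (γ * x)]
  unfold tanP
  rw [LinearMap.pi_apply, LinearMap.sum_apply]
  refine Finset.sum_congr rfl fun σ _ => ?_
  split_ifs with h
  · rw [LinearMap.smul_apply, smul_eq_mul, LinearMap.proj_apply, map_mul, map_mul]
    rfl
  · rfl

theorem isHom_toP (γ : Fin 4 → L) : IsHom (can j y hy) (prodOf j y hy) (toP j y hy γ) := by
  let H : (can j y hy).Tan →ₗ[ℂ] (prodOf j y hy).Tan :=
    LinearMap.pi fun k => (tanP j (y k) (γ k)).comp
      (LinearMap.proj (R := ℂ) (φ := fun k : Fin 4 => (typeOf j (y k) → ℂ)) k)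
  refine ⟨H, fun w => ?_⟩
  funext k ψ
  exact tanP_apply j (y k) (γ k) (w k) ψ

include hy in
theorem alg_four (h4 : Four 𝒞) (hidx : ∀ k, (stab (y k)).index ≤ 6) (hbal : Balanced y) :
    Alg 𝒞 j y := by
  classical
  refine alg_of_can j y hy ?_
  have hex : ∀ k, ∃ (n : ℕ) (a b : Fin n → L),
      ∀ x : L, x = ∑ i, b i * (emb (y k) 1) (rtr (emb (y k) 1) (a i * x)) :=
    fun k => exists_rdual (emb (y k) 1)
  choose n a b hab using hex
  let J : Fin 4 → Wt (prodOf j y hy) L := fun k => wt j y hy k 1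
  have hSt : ∀ k, St j (J k) = y k := fun k => by
    have h1 : St j (J k) = tr 1 (y k) := St_wt j y hy k 1
    rw [h1, tr_one]
  have hbal' : Balanced fun k => St j (J k) := by
    have h1 : (fun k => St j (J k)) = y := funext hSt
    rw [h1]
    exact hbal
  have h0 : mono J ∈ LSp 𝒞 L (prodOf j y hy) (Fin 4) := by
    refine mono_mem_of_trForm _ fun α => h4 (prodOf j y hy) (by simp) (fun k => ?_) _
      (isHodge_trForm j J hbal' α)
    change finrank ℚ (pairOf j (y k) (hy k)).E ≤ 6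
    rw [finrank_pairOf]
    exact hidx k
  have h1 : mono (canI j y hy) = ∑ p : ∀ k, Fin (n k), (∏ k, b k (p k)) •
      (fun v : Fin 4 → (can j y hy).H1 =>
        mono J (fun k => toP j y hy (fun k => a k (p k)) (v k))) := by
    funext v
    rw [Finset.sum_apply]
    simp only [Pi.smul_apply, smul_eq_mul]
    rw [mono_apply]
    simp only [mono_apply, Finset.mul_sum]
    rw [Finset.sum_comm]
    refine Finset.sum_congr rfl fun τ _ => ?_
    have h2 : ∀ k, ev (v (τ k)) (canI j y hy k) =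
        ∑ i, b k i * (emb (y k) 1) (rtr (emb (y k) 1) (a k i * (v (τ k) k : L))) :=
      fun k => hab k (v (τ k) k)
    rw [Finset.prod_congr rfl fun k _ => h2 k, Finset.prod_univ_sum, Fintype.piFinset_univ,
      Finset.mul_sum]
    refine Finset.sum_congr rfl fun p _ => ?_
    rw [Finset.prod_mul_distrib]
    have h3 : ∀ k, ev (toP j y hy (fun k => a k (p k)) (v (τ k))) (J k) =
        (emb (y k) 1) (rtr (emb (y k) 1) (a k (p k) * (v (τ k) k : L))) := fun k => rfl
    rw [Finset.prod_congr rfl fun k _ => h3 k]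
    ring
  rw [h1]
  exact Submodule.sum_mem _ fun p _ => Submodule.smul_mem _ _ (LSp.pull (isHom_toP j y hy _) h0)

end four

/-- All monomials with the given sign functions belong to the span. -/
def QQ (𝒞 : CS) (j : L →+* ℂ) (κ : Type) (t : κ → (L ≃ₐ[ℚ] L) → ℤ) : Prop :=
  ∀ [Fintype κ] [DecidableEq κ] (X : CMAV) (I : κ → Wt X L), (∀ k, sg (St j (I k)) = t k) →
    mono I ∈ LSp 𝒞 L X κ

theorem sg_injective : Function.Injective (sg : Set (L ≃ₐ[ℚ] L) → (L ≃ₐ[ℚ] L) → ℤ) := by
  classical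
  intro S T h
  ext σ
  have h1 := congrFun h σ
  unfold sg at h1
  by_cases h2 : σ ∈ S <;> by_cases h3 : σ ∈ T
  · exact ⟨fun _ => h3, fun _ => h2⟩
  · rw [if_pos h2, if_neg h3] at h1
    norm_num at h1
  · rw [if_neg h2, if_pos h3] at h1
    norm_num at h1
  · exact ⟨fun h => absurd h h2, fun h => absurd h h3⟩

theorem sg_compl (S : Set (L ≃ₐ[ℚ] L)) : sg Sᶜ = -sg S := by
  classical
  funext σ
  rw [Pi.neg_apply]
  unfold sg
  by_cases h : σ ∈ S
  · rw [if_pos h, if_neg (show σ ∉ Sᶜ from fun h' => h' h)]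
  · rw [if_neg h, if_pos (show σ ∈ Sᶜ from h), neg_neg]


theorem closedQ (j : L →+* ℂ) : Closed (L ≃ₐ[ℚ] L) (QQ 𝒞 j) := by
  classical
  refine ⟨?_, ?_, ?_, ?_⟩
  · intro κ _ t iF iD X I hI
    exact LSp.unit _
  · intro κ κ' _ e t t' h hQ iF iD X I hI
    have _ : Fintype κ := Fintype.ofFinite κ
    have h1 := hQ X (fun k => I (e k)) (fun k => by rw [hI, h])
    have h2 := LSp.reindex e h1
    rw [mono_reindex] at h2
    simpa using h2
  · intro κ κ' _ _ t t' h h' iF iD X I hI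
    let _ : Fintype κ := Fintype.ofFinite κ
    let _ : Fintype κ' := Fintype.ofFinite κ'
    obtain rfl : iF = instFintypeSum κ κ' := Subsingleton.elim _ _
    obtain rfl : iD = instDecidableEqSum := Subsingleton.elim _ _
    have h1 := h X (fun k => I (Sum.inl k)) (fun k => hI (Sum.inl k))
    have h2 := h' X (fun k => I (Sum.inr k)) (fun k => hI (Sum.inr k))
    have h3 := LSp.cup h1 h2
    rw [mono_cup] at h3
    have h4 : (Fintype.card (Perm κ) : L) * (Fintype.card (Perm κ') : L) ≠ 0 := by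
      rw [← Nat.cast_mul]
      exact Nat.cast_ne_zero.2 (Nat.mul_ne_zero Fintype.card_ne_zero Fintype.card_ne_zero)
    have h5 := Submodule.smul_mem _ (((Fintype.card (Perm κ) : L) * (Fintype.card (Perm κ') : L))⁻¹) h3
    rw [smul_smul, inv_mul_cancel₀ h4, one_smul] at h5
    have h6 : Sum.elim (fun k => I (Sum.inl k)) (fun k => I (Sum.inr k)) = I := by
      funext s
      cases s <;> rfl
    rwa [h6] at h5
  · intro f iF iD X I hI
    obtain rfl : iF = Fin.fintype 2 := Subsingleton.elim _ _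
    obtain rfl : iD = instDecidableEqFin 2 := Subsingleton.elim _ _
    refine mono_mem_of_trForm I fun α => 𝒞.divisor (by simp) _ (isHodge_trForm j I ?_ α)
    intro σ
    change ∑ k, sg (St j (I k)) σ = 0
    rw [Finset.sum_congr rfl fun k _ => by rw [hI k], Fin.sum_univ_two]
    change f σ + -f σ = 0
    ring

theorem cancelQ (j : L →+* ℂ) {S : Set (L ≃ₐ[ℚ] L)} (hS : IsHalf S) :
    PairCancel (L ≃ₐ[ℚ] L) (QQ 𝒞 j) (sg S) := by
  classical
  intro κ _ t hQ iF iD X I hI
  refine alg_cancel j (s := fun k => St j (I k)) (fun k => isHalf_St j (I k)) hS ?_ X I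
    (fun k => rfl)
  intro X' I' hI'
  refine hQ X' I' fun k => ?_
  rw [hI']
  rcases k with k | k
  · exact hI k
  · fin_cases k
    · rfl
    · exact sg_compl S

/-- The half system of a sign function. -/
theorem isHalf_of_sign {f : (L ≃ₐ[ℚ] L) → ℤ} (hf : IsSign (cc L) f) :
    IsHalf {σ | f σ = 1} := by
  intro σ
  change f σ = 1 ↔ ¬ f (cc L * σ) = 1
  have h1 : f (cc L * σ) = -f σ := hf.odd σ
  rw [h1]
  rcases hf.sign σ with h | h <;> rw [h] <;> norm_num

theorem sg_of_sign {f : (L ≃ₐ[ℚ] L) → ℤ} (hf : IsSign (cc L) f) : sg {σ | f σ = 1} = f := by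
  classical
  funext σ
  unfold sg
  rcases hf.sign σ with h | h
  · rw [h, if_pos (show σ ∈ {σ | f σ = 1} from h)]
  · rw [h, if_neg]
    intro h'
    have h'' : f σ = 1 := h'
    rw [h] at h''
    norm_num at h''

/-- The functions of the half systems with stabilizers of index at most six. -/
def RS (L : Type) [Field L] [NumberField L] [IsCMField L] [IsGalois ℚ L] :
    Set ((L ≃ₐ[ℚ] L) → ℤ) := {f | Sm (cc L) f}

theorem Q_four (h4 : Four 𝒞) (j : L →+* ℂ) (f : Fin 4 → (L ≃ₐ[ℚ] L) → ℤ)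
    (hf : ∀ k, Sm (cc L) (f k)) (hsum : ∀ σ, ∑ k, f k σ = 0) : QQ 𝒞 j (Fin 4) f := by
  classical
  intro iF iD X I hI
  obtain rfl : iF = Fin.fintype 4 := Subsingleton.elim _ _
  obtain rfl : iD = instDecidableEqFin 4 := Subsingleton.elim _ _
  have hs : ∀ k, sg (St j (I k)) = f k := hI
  refine alg_four j (fun k => St j (I k)) (fun k => isHalf_St j (I k)) h4 (fun k => ?_)
    (fun σ => ?_) X I fun k => rfl
  · rw [← rst_sg, hs]
    exact (hf k).2
  · change ∑ k, sg (St j (I k)) σ = 0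
    rw [Finset.sum_congr rfl fun k _ => by rw [hs k]]
    exact hsum σ

/-- The subgroup of the counting functions. -/
def NN (𝒞 : CS) (j : L →+* ℂ) : AddSubgroup (((L ≃ₐ[ℚ] L) → ℤ) → ℤ) where
  carrier := {d | GenD (QQ 𝒞 j) (RS L) d}
  zero_mem' := GenD.zero
  add_mem' h h' := h.add h'
  neg_mem' h := h.neg

theorem genD_small (h4 : Four 𝒞) (j : L →+* ℂ) {κ : Type} [Fintype κ]
    (f : κ → (L ≃ₐ[ℚ] L) → ℤ) (hf : ∀ k, Sm (cc L) (f k)) (hsum : ∀ σ, ∑ k, f k σ = 0) :
    GenD (QQ 𝒞 j) (RS L) (dcnt f) := by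
  classical
  let π : (((L ≃ₐ[ℚ] L) → ℤ) → ℤ) →+ (((L ≃ₐ[ℚ] L) → ℤ) → ℤ) ⧸ NN 𝒞 j :=
    QuotientAddGroup.mk' (NN 𝒞 j)
  let D : ((L ≃ₐ[ℚ] L) → ℤ) → (((L ≃ₐ[ℚ] L) → ℤ) → ℤ) ⧸ NN 𝒞 j := fun f => π (dl f)
  have h1 : Rl D (Sm (cc L)) := by
    refine rl_small (fun g => cc_comm j g) cc_cc D (fun f _ => ?_) fun f hf hs => ?_
    · change π (dl (-f)) = -π (dl f)
      rw [dl_neg, map_neg]
    · change ∑ k, π (dl (f k)) = 0
      rw [← map_sum, ← dcnt_eq_sum]
      refine (QuotientAddGroup.eq_zero_iff _).2 ?_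
      refine GenD.of_good ⟨inferInstance, by simp [Nat.even_iff], fun k => hf k, ?_, ?_⟩
      · exact Q_four h4 j f hf hs
      · refine Q_four h4 j (fun k => -f k) (fun k => (hf k).neg) fun σ => ?_
        rw [Finset.sum_congr rfl fun k _ => Pi.neg_apply (f k) σ, Finset.sum_neg_distrib, hs,
          neg_zero]
  have h2 := h1 κ (fun _ => 1) f hf (fun σ => by
    rw [← hsum σ]
    exact Finset.sum_congr rfl fun k _ => one_mul _)
  have h3 : ∑ k, (1 : ℤ) • D (f k) = π (dcnt f) := by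
    rw [dcnt_eq_sum, map_sum]
    exact Finset.sum_congr rfl fun k _ => one_smul _ _
  rw [h3] at h2
  exact (QuotientAddGroup.eq_zero_iff _).1 h2

theorem alg_small (h4 : Four 𝒞) (j : L →+* ℂ) {κ : Type} [Fintype κ]
    (s : κ → Set (L ≃ₐ[ℚ] L)) (hs : ∀ k, IsHalf (s k)) (hidx : ∀ k, (stab (s k)).index ≤ 6)
    (hbal : Balanced s) : QQ 𝒞 j κ fun k => sg (s k) := by
  classical
  have hf : ∀ k, Sm (cc L) (sg (s k)) := fun k => ⟨isSign_sg (hs k), by
    rw [rst_sg]
    exact hidx k⟩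
  have hsum : ∀ σ, ∑ k, sg (s k) σ = 0 := hbal
  refine @of_genD _ (QQ 𝒞 j) (RS L) (closedQ j) (fun f hf => ?_) κ _ _ hf ?_
    (genD_small h4 j _ hf hsum)
  · have h1 := cancelQ (𝒞 := 𝒞) j (isHalf_of_sign hf.1)
    rwa [sg_of_sign hf.1] at h1
  · have h1 := hsum 1
    have h2 : ∀ k, sg (s k) 1 = 2 * (if 1 ∈ s k then 1 else 0) - 1 := by
      intro k
      unfold sg
      split_ifs <;> norm_num
    rw [Finset.sum_congr rfl fun k _ => h2 k, Finset.sum_sub_distrib, ← Finset.mul_sum,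
      Finset.sum_const, nsmul_eq_mul, mul_one, Finset.card_univ] at h1
    rw [Nat.card_eq_fintype_card]
    have h3 : ((Fintype.card κ : ℕ) : ℤ) = 2 * ∑ k, (if 1 ∈ s k then (1 : ℤ) else 0) := by omega
    have h5 : Even ((Fintype.card κ : ℕ) : ℤ) := ⟨∑ k, (if 1 ∈ s k then (1 : ℤ) else 0), by
      rw [h3]
      ring⟩
    exact_mod_cast h5

omit [IsCMField L] [IsGalois ℚ L] in
/-- **The Hodge classes on products of abelian varieties with complex multiplication by fields of
degree at most six belong to the system.** -/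
theorem hodge_small (h4 : Four 𝒞) (X : CMAV) (hX : ∀ i, finrank ℚ (X.factor i).E ≤ 6) {κ : Type}
    [Finite κ] (f : X.H1 [⋀^κ]→ₗ[ℚ] ℚ) (hf : IsHodge X.per f) : 𝒞.A X κ f := by
  classical
  have := Fintype.ofFinite κ
  rcases isEmpty_or_nonempty κ with hκ | ⟨⟨k0⟩⟩
  · exact 𝒞.unit f
  rcases isEmpty_or_nonempty X.I with hI | hI
  · have h1 : f = 0 := by
      ext v
      have h2 : v k0 = 0 := by
        funext i
        exact (hI.false i).elim
      rw [f.map_coord_zero k0 h2]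
      rfl
    rw [h1]
    exact 𝒞.zero X κ
  obtain ⟨L, _, _, _, _, j, hj⟩ := exists_cm X
  apply gen_of_LSp (L := L)
  obtain ⟨c, hc⟩ := form_coeff (E := fun i : X.I => (X.factor i).E) (fun i : X.I => i) j hj
    f.toMultilinearMap
  have hmono : ∀ I : κ → Wt X L, c I ≠ 0 → mono I ∈ LSp 𝒞 L X κ := by
    intro I hI
    have h1 : Balanced (fun k => St j (I k)) := by
      intro σ
      have h2 := balanced_of_hodge (E := fun i : X.I => (X.factor i).E)
        (Φ := fun i : X.I => (X.factor i).Φ) (fun i : X.I => i) j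
        (fun i => (X.factor i).isCMType) hj f hf c hc I hI σ
      exact h2
    refine alg_small h4 j (fun k => St j (I k)) (fun k => isHalf_St j (I k)) (fun k => ?_) h1 X I
      (fun k => rfl)
    exact (Pool.Agent.Y137.SF.index_hs_le j (X.factor (I k).1) (hj (I k).1) (I k).2).trans (hX _)
  have hsum : ((Fintype.card (Perm κ) : ℕ) : L) • (fun v : κ → X.H1 => ((f v : ℚ) : L)) =
      ∑ I : κ → Wt X L, c I • mono I := by
    funext v
    rw [Finset.sum_apply, Pi.smul_apply, smul_eq_mul]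
    have h1 : ∀ σ : Perm κ, ((f v : ℚ) : L) = ((Perm.sign σ : ℤ) : L) *
        ∑ I : κ → Wt X L, c I * ∏ k, ev (v (σ k)) (I k) := by
      intro σ
      have h2 : ((f (fun k => v (σ k)) : ℚ) : L) =
          ∑ I : κ → Wt X L, c I * ∏ k, ev (v (σ k)) (I k) := hc (fun k => v (σ k))
      rw [← h2]
      have h3 : f (fun k => v (σ k)) = Perm.sign σ • f v := f.map_perm v σ
      rw [h3, Units.smul_def, zsmul_eq_mul, Rat.cast_mul, Rat.cast_intCast, ← mul_assoc,
        ← Int.cast_mul, ← Units.val_mul, Int.units_mul_self, Units.val_one, Int.cast_one, one_mul]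
    have h4 : ((Fintype.card (Perm κ) : ℕ) : L) * ((f v : ℚ) : L) =
        ∑ σ : Perm κ, ((Perm.sign σ : ℤ) : L) *
          ∑ I : κ → Wt X L, c I * ∏ k, ev (v (σ k)) (I k) := by
      rw [← Finset.sum_congr rfl (fun σ _ => h1 σ), Finset.sum_const, Finset.card_univ,
        nsmul_eq_mul]
    rw [h4]
    simp only [Finset.mul_sum]
    rw [Finset.sum_comm]
    refine Finset.sum_congr rfl fun I _ => ?_
    rw [Pi.smul_apply, smul_eq_mul, mono_apply, Finset.mul_sum]
    refine Finset.sum_congr rfl fun σ _ => ?_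
    ring
  have h5 : ((Fintype.card (Perm κ) : ℕ) : L) • (fun v : κ → X.H1 => ((f v : ℚ) : L)) ∈
      LSp 𝒞 L X κ := by
    rw [hsum]
    refine Submodule.sum_mem _ fun I _ => ?_
    by_cases hI : c I = 0
    · rw [hI, zero_smul]
      exact Submodule.zero_mem _
    · exact Submodule.smul_mem _ _ (hmono I hI)
  have hne : ((Fintype.card (Perm κ) : ℕ) : L) ≠ 0 := Nat.cast_ne_zero.2 Fintype.card_ne_zero
  have h6 := Submodule.smul_mem _ (((Fintype.card (Perm κ) : ℕ) : L))⁻¹ h5
  rwa [smul_smul, inv_mul_cancel₀ hne, one_smul] at h6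

end

end Pool.Agent.R937.HZ
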