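import Pool.Agent.R937.HZ.Rel

/-!
# Relations between sign functions on the symmetric group of degree three
-/

set_option autoImplicit false
set_option linter.unusedSectionVars false
set_option linter.unusedVariables false

namespace Pool.Agent.R937.HZ

/-- The symmetric group of degree three. -/
abbrev P3 : Type := Equiv.Perm (Fin 3)

/-- The sign. -/
def sgn3 (σ : P3) : ℤ := if σ 1 = σ 0 + 1 then 1 else -1

/-- The functions that change the sign at the permutations which send `p` to `i`. -/
def TT (b : Bool) (p i : Fin 3) (σ : P3) : ℤ :=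
  (if b then sgn3 σ else 1) * (if σ p = i then -1 else 1)

/-- The constant function and the sign. -/
def UU (b : Bool) (σ : P3) : ℤ := if b then sgn3 σ else 1

/-- A transposition. -/
def sw (p : Fin 3) : P3 := Equiv.swap (p + 1) (p + 2)

/-- Sign functions that are multiplied by a sign under a transposition. -/
def Good (F : P3 → ℤ) : Prop :=
  (∀ σ, F σ = 1 ∨ F σ = -1) ∧ ∃ (b : Bool) (p : Fin 3), ∀ σ, F (σ * sw p) = (if b then -1 else 1) * F σ

theorem TT_sign (b : Bool) (p i : Fin 3) (σ : P3) : TT b p i σ = 1 ∨ TT b p i σ = -1 := by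
  revert b p i σ
  decide

theorem UU_sign (b : Bool) (σ : P3) : UU b σ = 1 ∨ UU b σ = -1 := by
  revert b σ
  decide

theorem TT_sw (b : Bool) (p i : Fin 3) (σ : P3) :
    TT b p i (σ * sw p) = (if b then -1 else 1) * TT b p i σ := by
  revert b p i σ
  decide

theorem UU_sw (b : Bool) (σ : P3) : UU b (σ * sw 0) = (if b then -1 else 1) * UU b σ := by
  revert b σ
  decide

theorem good_TT (b : Bool) (p i : Fin 3) : Good (TT b p i) := ⟨TT_sign b p i, b, p, TT_sw b p i⟩

theorem good_UU (b : Bool) : Good (UU b) := ⟨UU_sign b, b, 0, UU_sw b⟩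

theorem Good.neg {F : P3 → ℤ} (h : Good F) : Good (-F) := by
  obtain ⟨h1, b, p, h2⟩ := h
  refine ⟨fun σ => ?_, b, p, fun σ => ?_⟩
  · rw [Pi.neg_apply]
    rcases h1 σ with h | h <;> rw [h] <;> norm_num
  · rw [Pi.neg_apply, Pi.neg_apply, h2, mul_neg]

/-- All permutations are determined by the image of `p` up to the transposition. -/
theorem cases_sw (p : Fin 3) (σ τ : P3) (h : σ p = τ p) : σ = τ ∨ σ = τ * sw p := by
  revert p σ τ
  decide

theorem sgn3_sw (p : Fin 3) (σ : P3) : sgn3 (σ * sw p) = -sgn3 σ := by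
  revert p σ
  decide

theorem sgn3_sign (σ : P3) : sgn3 σ = 1 ∨ sgn3 σ = -1 := by
  revert σ
  decide

theorem swap_apply3 (p i : Fin 3) : Equiv.swap p i p = i := Equiv.swap_apply_left p i

/-- The good functions. -/
theorem good_cases {F : P3 → ℤ} (h : Good F) : (∃ b, F = UU b ∨ F = -UU b) ∨
    ∃ b p i, F = TT b p i ∨ F = -TT b p i := by
  obtain ⟨h1, b, p, h2⟩ := h
  -- the function of the image of `p`
  let v : Fin 3 → ℤ := fun i => (if b then sgn3 (Equiv.swap p i) else 1) * F (Equiv.swap p i)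
  have hv : ∀ σ, F σ = (if b then sgn3 σ else 1) * v (σ p) := by
    intro σ
    change F σ = (if b then sgn3 σ else 1) *
      ((if b then sgn3 (Equiv.swap p (σ p)) else 1) * F (Equiv.swap p (σ p)))
    rcases cases_sw p σ (Equiv.swap p (σ p)) (Equiv.swap_apply_left p (σ p)).symm with h | h
    · rw [← h]
      rcases sgn3_sign σ with h3 | h3 <;> cases b <;> simp [h3]
    · have h4 : F σ = (if b then -1 else 1) * F (Equiv.swap p (σ p)) := by
        conv_lhs => rw [h]
        exact h2 _
      have h5 : sgn3 σ = -sgn3 (Equiv.swap p (σ p)) := by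
        conv_lhs => rw [h]
        exact sgn3_sw _ _
      rw [h4, h5]
      rcases sgn3_sign (Equiv.swap p (σ p)) with h3 | h3 <;> cases b <;> simp [h3]
  have hv1 : ∀ i, v i = 1 ∨ v i = -1 := by
    intro i
    have h3 := hv (Equiv.swap p i)
    rw [Equiv.swap_apply_left] at h3
    rcases h1 (Equiv.swap p i) with h4 | h4 <;> rcases sgn3_sign (Equiv.swap p i) with h5 | h5 <;>
      cases b <;> simp [h4, h5] at h3 <;> omega
  have key : ∀ w : Fin 3 → ℤ, (∀ i, w i = 1 ∨ w i = -1) →
      ((∀ i, w i = 1) ∨ (∀ i, w i = -1)) ∨ ∃ i0, (∀ i, w i = if i = i0 then -1 else 1) ∨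
        (∀ i, w i = -(if i = i0 then -1 else 1)) := by
    intro w hw
    rcases hw 0 with a0 | a0 <;> rcases hw 1 with a1 | a1 <;> rcases hw 2 with a2 | a2
    · left; left; intro i; fin_cases i <;> assumption
    · right; refine ⟨2, Or.inl fun i => ?_⟩; fin_cases i <;> simp [a0, a1, a2]
    · right; refine ⟨1, Or.inl fun i => ?_⟩; fin_cases i <;> simp [a0, a1, a2]
    · right; refine ⟨0, Or.inr fun i => ?_⟩; fin_cases i <;> simp [a0, a1, a2]
    · right; refine ⟨0, Or.inl fun i => ?_⟩; fin_cases i <;> simp [a0, a1, a2]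
    · right; refine ⟨1, Or.inr fun i => ?_⟩; fin_cases i <;> simp [a0, a1, a2]
    · right; refine ⟨2, Or.inr fun i => ?_⟩; fin_cases i <;> simp [a0, a1, a2]
    · left; right; intro i; fin_cases i <;> assumption
  rcases key v hv1 with (h3 | h3) | ⟨i0, h3 | h3⟩
  · left
    refine ⟨b, Or.inl (funext fun σ => ?_)⟩
    rw [hv, h3, mul_one]
    rfl
  · left
    refine ⟨b, Or.inr (funext fun σ => ?_)⟩
    rw [hv, h3, mul_neg_one]
    rfl
  · right
    refine ⟨b, p, i0, Or.inl (funext fun σ => ?_)⟩
    rw [hv, h3]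
    rfl
  · right
    refine ⟨b, p, i0, Or.inr (funext fun σ => ?_)⟩
    rw [hv, h3, mul_neg]
    rfl

section rel

theorem rel_row (b : Bool) (p : Fin 3) (σ : P3) :
    TT b p 0 σ + TT b p 1 σ + TT b p 2 σ = UU b σ := by
  revert b p σ
  decide

theorem rel_col (b : Bool) (i : Fin 3) (σ : P3) :
    TT b 0 i σ + TT b 1 i σ + TT b 2 i σ = UU b σ := by
  revert b i σ
  decide

theorem rel_l1 (σ : P3) : TT false 1 2 σ - TT true 1 2 σ = TT false 0 0 σ - TT true 0 0 σ := by
  revert σ
  decide

theorem rel_l2 (σ : P3) : TT false 2 1 σ - TT true 2 1 σ = TT false 0 0 σ - TT true 0 0 σ := by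
  revert σ
  decide

theorem rel_l3 (σ : P3) : TT false 1 1 σ + TT true 1 1 σ = TT false 0 0 σ + TT true 0 0 σ := by
  revert σ
  decide

theorem rel_l4 (σ : P3) : TT false 2 2 σ + TT true 2 2 σ = TT false 0 0 σ + TT true 0 0 σ := by
  revert σ
  decide

end rel

/-- The basis. -/
def BB (k : Fin 6) : P3 → ℤ :=
  ![TT false 0 0, TT false 1 2, TT false 2 1, TT false 2 2, TT false 1 1, TT true 0 0] k

section module

variable {M : Type} [AddCommGroup M] (D : (P3 → ℤ) → M) (hneg : ∀ F, Good F → D (-F) = -D F)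
  (h4 : ∀ F : Fin 4 → P3 → ℤ, (∀ k, Good (F k)) → (∀ x, ∑ k, F k x = 0) → ∑ k, D (F k) = 0)

include hneg h4

theorem r4 (F1 F2 F3 F4 : P3 → ℤ) (g1 : Good F1) (g2 : Good F2) (g3 : Good F3) (g4 : Good F4)
    (h : ∀ σ, F1 σ + F2 σ + F3 σ = F4 σ) : D F1 + D F2 + D F3 = D F4 := by
  have h1 := h4 ![F1, F2, F3, -F4] (by
    intro k
    fin_cases k
    · exact g1
    · exact g2
    · exact g3
    · exact g4.neg) (by
    intro x
    rw [Fin.sum_univ_four]
    change F1 x + F2 x + F3 x + -F4 x = 0
    rw [h]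
    ring)
  rw [Fin.sum_univ_four] at h1
  change D F1 + D F2 + D F3 + D (-F4) = 0 at h1
  rw [hneg _ g4] at h1
  exact add_neg_eq_zero.1 h1

theorem r_row (b : Bool) (p : Fin 3) :
    D (TT b p 0) + D (TT b p 1) + D (TT b p 2) = D (UU b) :=
  r4 D hneg h4 _ _ _ _ (good_TT _ _ _) (good_TT _ _ _) (good_TT _ _ _) (good_UU _) (rel_row b p)

theorem r_col (b : Bool) (i : Fin 3) :
    D (TT b 0 i) + D (TT b 1 i) + D (TT b 2 i) = D (UU b) :=
  r4 D hneg h4 _ _ _ _ (good_TT _ _ _) (good_TT _ _ _) (good_TT _ _ _) (good_UU _) (rel_col b i)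

theorem r_l1 : D (TT false 1 2) - D (TT true 1 2) = D (TT false 0 0) - D (TT true 0 0) := by
  have h := r4 D hneg h4 (TT false 1 2) (-TT true 1 2) (TT true 0 0) (TT false 0 0) (good_TT _ _ _)
    (good_TT _ _ _).neg (good_TT _ _ _) (good_TT _ _ _) (fun σ => by
      rw [Pi.neg_apply]
      linarith [rel_l1 σ])
  rw [hneg _ (good_TT _ _ _)] at h
  linear_combination (norm := module) h

theorem r_l2 : D (TT false 2 1) - D (TT true 2 1) = D (TT false 0 0) - D (TT true 0 0) := by
  have h := r4 D hneg h4 (TT false 2 1) (-TT true 2 1) (TT true 0 0) (TT false 0 0) (good_TT _ _ _)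
    (good_TT _ _ _).neg (good_TT _ _ _) (good_TT _ _ _) (fun σ => by
      rw [Pi.neg_apply]
      linarith [rel_l2 σ])
  rw [hneg _ (good_TT _ _ _)] at h
  linear_combination (norm := module) h

theorem r_l3 : D (TT false 1 1) + D (TT true 1 1) = D (TT false 0 0) + D (TT true 0 0) := by
  have h := r4 D hneg h4 (TT false 1 1) (TT true 1 1) (-TT true 0 0) (TT false 0 0) (good_TT _ _ _)
    (good_TT _ _ _) (good_TT _ _ _).neg (good_TT _ _ _) (fun σ => by
      rw [Pi.neg_apply]
      linarith [rel_l3 σ])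
  rw [hneg _ (good_TT _ _ _)] at h
  linear_combination (norm := module) h

theorem r_l4 : D (TT false 2 2) + D (TT true 2 2) = D (TT false 0 0) + D (TT true 0 0) := by
  have h := r4 D hneg h4 (TT false 2 2) (TT true 2 2) (-TT true 0 0) (TT false 0 0) (good_TT _ _ _)
    (good_TT _ _ _) (good_TT _ _ _).neg (good_TT _ _ _) (fun σ => by
      rw [Pi.neg_apply]
      linarith [rel_l4 σ])
  rw [hneg _ (good_TT _ _ _)] at h
  linear_combination (norm := module) h

/-- The linear combinations of the basis with coefficients `n`. -/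
def Cmb (F : P3 → ℤ) (n : Fin 6 → ℤ) : Prop :=
  (∀ σ, F σ = ∑ k, n k * BB k σ) ∧ D F = ∑ k, n k • D (BB k)

omit hneg h4 in
theorem cmb_mk (F : P3 → ℤ) (n0 n1 n2 n3 n4 n5 : ℤ)
    (h1 : ∀ σ, F σ = n0 * TT false 0 0 σ + n1 * TT false 1 2 σ + n2 * TT false 2 1 σ +
      n3 * TT false 2 2 σ + n4 * TT false 1 1 σ + n5 * TT true 0 0 σ)
    (h2 : D F = n0 • D (TT false 0 0) + n1 • D (TT false 1 2) + n2 • D (TT false 2 1) +
      n3 • D (TT false 2 2) + n4 • D (TT false 1 1) + n5 • D (TT true 0 0)) :
    ∃ n : Fin 6 → ℤ, Cmb D F n := by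
  refine ⟨![n0, n1, n2, n3, n4, n5], fun σ => ?_, ?_⟩
  · rw [h1, Fin.sum_univ_six]
    rfl
  · rw [h2, Fin.sum_univ_six]
    rfl

theorem cmb_all : (∀ b, ∃ n, Cmb D (UU b) n) ∧ ∀ b p i, ∃ n, Cmb D (TT b p i) n := by
  have rA := r_row D hneg h4
  have rB := r_col D hneg h4
  have l1 := r_l1 D hneg h4
  have l2 := r_l2 D hneg h4
  have l3 := r_l3 D hneg h4
  have l4 := r_l4 D hneg h4
  refine ⟨fun b => ?_, fun b p i => ?_⟩
  · cases b
    · exact cmb_mk D (UU false) (-1) (1) (1) (1) (1) (0) (by decide)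
        (by linear_combination (norm := module) (rB false 0) - (rA false 1) - (rA false 2))
    · exact cmb_mk D (UU true) (0) (1) (1) (-1) (-1) (3) (by decide)
        (by linear_combination (norm := module) (rB true 0) - (rA true 1) - (rA true 2) - (l1) - (l2) + (l3) + (l4))
  · cases b <;> fin_cases p <;> fin_cases i
    · exact cmb_mk D (TT false 0 0) (1) (0) (0) (0) (0) (0) (by decide)
        (by module)
    · exact cmb_mk D (TT false 0 1) (-1) (1) (0) (1) (0) (0) (by decide)
        (by linear_combination (norm := module) (rB false 0) - (rA false 1) + (rB false 1) - (rA false 2))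
    · exact cmb_mk D (TT false 0 2) (-1) (0) (1) (0) (1) (0) (by decide)
        (by linear_combination (norm := module) (rA false 0) - (rB false 1))
    · exact cmb_mk D (TT false 1 0) (-1) (0) (1) (1) (0) (0) (by decide)
        (by linear_combination (norm := module) (rB false 0) - (rA false 2))
    · exact cmb_mk D (TT false 1 1) (0) (0) (0) (0) (1) (0) (by decide)
        (by module)
    · exact cmb_mk D (TT false 1 2) (0) (1) (0) (0) (0) (0) (by decide)
        (by module)
    · exact cmb_mk D (TT false 2 0) (-1) (1) (0) (0) (1) (0) (by decide)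
        (by linear_combination (norm := module) (rB false 0) - (rA false 1))
    · exact cmb_mk D (TT false 2 1) (0) (0) (1) (0) (0) (0) (by decide)
        (by module)
    · exact cmb_mk D (TT false 2 2) (0) (0) (0) (1) (0) (0) (by decide)
        (by module)
    · exact cmb_mk D (TT true 0 0) (0) (0) (0) (0) (0) (1) (by decide)
        (by module)
    · exact cmb_mk D (TT true 0 1) (0) (1) (0) (-1) (0) (1) (by decide)
        (by linear_combination (norm := module) (rB true 0) - (rA true 1) + (rB true 1) - (rA true 2) - (l1) + (l4))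
    · exact cmb_mk D (TT true 0 2) (0) (0) (1) (0) (-1) (1) (by decide)
        (by linear_combination (norm := module) (rA true 0) - (rB true 1) - (l2) + (l3))
    · exact cmb_mk D (TT true 1 0) (0) (0) (1) (-1) (0) (1) (by decide)
        (by linear_combination (norm := module) (rB true 0) - (rA true 2) - (l2) + (l4))
    · exact cmb_mk D (TT true 1 1) (1) (0) (0) (0) (-1) (1) (by decide)
        (by linear_combination (norm := module) (l3))
    · exact cmb_mk D (TT true 1 2) (-1) (1) (0) (0) (0) (1) (by decide)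
        (by linear_combination (norm := module) -(l1))
    · exact cmb_mk D (TT true 2 0) (0) (1) (0) (0) (-1) (1) (by decide)
        (by linear_combination (norm := module) (rB true 0) - (rA true 1) - (l1) + (l3))
    · exact cmb_mk D (TT true 2 1) (-1) (0) (1) (0) (0) (1) (by decide)
        (by linear_combination (norm := module) -(l2))
    · exact cmb_mk D (TT true 2 2) (1) (0) (0) (-1) (0) (1) (by decide)
        (by linear_combination (norm := module) (l4))

/-- Linear independence of the basis. -/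
theorem indep (n : Fin 6 → ℤ) (h : ∀ σ, ∑ k, n k * BB k σ = 0) : n = 0 := by
  have h0 := h (1)
  rw [Fin.sum_univ_six,
    show BB 0 (1) = -1 from by decide,
    show BB 1 (1) = 1 from by decide,
    show BB 2 (1) = 1 from by decide,
    show BB 3 (1) = -1 from by decide,
    show BB 4 (1) = -1 from by decide,
    show BB 5 (1) = -1 from by decide] at h0
  have h1 := h (Equiv.swap 0 1)
  rw [Fin.sum_univ_six,
    show BB 0 (Equiv.swap 0 1) = 1 from by decide,
    show BB 1 (Equiv.swap 0 1) = 1 from by decide,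
    show BB 2 (Equiv.swap 0 1) = 1 from by decide,
    show BB 3 (Equiv.swap 0 1) = -1 from by decide,
    show BB 4 (Equiv.swap 0 1) = 1 from by decide,
    show BB 5 (Equiv.swap 0 1) = -1 from by decide] at h1
  have h2 := h (Equiv.swap 0 2)
  rw [Fin.sum_univ_six,
    show BB 0 (Equiv.swap 0 2) = 1 from by decide,
    show BB 1 (Equiv.swap 0 2) = 1 from by decide,
    show BB 2 (Equiv.swap 0 2) = 1 from by decide,
    show BB 3 (Equiv.swap 0 2) = 1 from by decide,
    show BB 4 (Equiv.swap 0 2) = -1 from by decide,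
    show BB 5 (Equiv.swap 0 2) = -1 from by decide] at h2
  have h3 := h (Equiv.swap 1 2)
  rw [Fin.sum_univ_six,
    show BB 0 (Equiv.swap 1 2) = -1 from by decide,
    show BB 1 (Equiv.swap 1 2) = -1 from by decide,
    show BB 2 (Equiv.swap 1 2) = -1 from by decide,
    show BB 3 (Equiv.swap 1 2) = 1 from by decide,
    show BB 4 (Equiv.swap 1 2) = 1 from by decide,
    show BB 5 (Equiv.swap 1 2) = 1 from by decide] at h3
  have h4 := h (Equiv.swap 0 1 * Equiv.swap 1 2)
  rw [Fin.sum_univ_six,
    show BB 0 (Equiv.swap 0 1 * Equiv.swap 1 2) = 1 from by decide,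
    show BB 1 (Equiv.swap 0 1 * Equiv.swap 1 2) = -1 from by decide,
    show BB 2 (Equiv.swap 0 1 * Equiv.swap 1 2) = 1 from by decide,
    show BB 3 (Equiv.swap 0 1 * Equiv.swap 1 2) = 1 from by decide,
    show BB 4 (Equiv.swap 0 1 * Equiv.swap 1 2) = 1 from by decide,
    show BB 5 (Equiv.swap 0 1 * Equiv.swap 1 2) = 1 from by decide] at h4
  have h5 := h (Equiv.swap 1 2 * Equiv.swap 0 1)
  rw [Fin.sum_univ_six,
    show BB 0 (Equiv.swap 1 2 * Equiv.swap 0 1) = 1 from by decide,
    show BB 1 (Equiv.swap 1 2 * Equiv.swap 0 1) = 1 from by decide,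
    show BB 2 (Equiv.swap 1 2 * Equiv.swap 0 1) = -1 from by decide,
    show BB 3 (Equiv.swap 1 2 * Equiv.swap 0 1) = 1 from by decide,
    show BB 4 (Equiv.swap 1 2 * Equiv.swap 0 1) = 1 from by decide,
    show BB 5 (Equiv.swap 1 2 * Equiv.swap 0 1) = 1 from by decide] at h5
  funext k
  rw [Pi.zero_apply]
  fin_cases k
  · change n 0 = 0
    omega
  · change n 1 = 0
    omega
  · change n 2 = 0
    omega
  · change n 3 = 0
    omega
  · change n 4 = 0
    omega
  · change n 5 = 0
    omega

/-- The relations between good functions. -/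
theorem rl_good : Rl D Good := by
  intro ι _ m F hF hr
  obtain ⟨hU, hT⟩ := cmb_all D hneg h4
  have hc : ∀ j, ∃ n, Cmb D (F j) n := by
    intro j
    have hn : ∀ F', Good F' → (∃ n, Cmb D F' n) → ∃ n, Cmb D (-F') n := by
      rintro F' hF' ⟨n, h1, h2⟩
      refine ⟨-n, fun σ => ?_, ?_⟩
      · rw [Pi.neg_apply, h1, ← Finset.sum_neg_distrib]
        exact Finset.sum_congr rfl fun k _ => by rw [Pi.neg_apply, neg_mul]
      · rw [hneg _ hF', h2, ← Finset.sum_neg_distrib]
        exact Finset.sum_congr rfl fun k _ => by rw [Pi.neg_apply, neg_smul]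
    rcases good_cases (hF j) with ⟨b, h | h⟩ | ⟨b, p, i, h | h⟩
    · rw [h]
      exact hU b
    · rw [h]
      exact hn _ (good_UU b) (hU b)
    · rw [h]
      exact hT b p i
    · rw [h]
      exact hn _ (good_TT b p i) (hT b p i)
  choose n hn using hc
  have h1 : (fun k => ∑ j, m j * n j k) = 0 := by
    refine indep D hneg h4 _ fun σ => ?_
    have h2 := hr σ
    rw [Finset.sum_congr rfl fun j _ => by rw [(hn j).1 σ, Finset.mul_sum]] at h2
    rw [Finset.sum_comm] at h2
    rw [← h2]
    refine Finset.sum_congr rfl fun k _ => ?_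
    rw [Finset.sum_mul]
    exact Finset.sum_congr rfl fun j _ => by rw [mul_assoc]
  rw [Finset.sum_congr rfl fun j _ => by rw [(hn j).2, Finset.smul_sum], Finset.sum_comm]
  refine Finset.sum_eq_zero fun k _ => ?_
  have h3 := congrFun h1 k
  rw [Pi.zero_apply] at h3
  have h5 : (∑ j, m j * n j k) • D (BB k) = 0 := by
    rw [h3, zero_smul]
  rw [Finset.sum_smul] at h5
  rw [← h5]
  exact Finset.sum_congr rfl fun j _ => by rw [mul_smul]

end module

end Pool.Agent.R937.HZ
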