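import Pool.Agent.R937.HZ.Split
import Pool.Agent.R937.HZ.S3

/-!
# Relations between sign functions with stabilizers of index six
-/

set_option autoImplicit false
set_option linter.unusedSectionVars false
set_option linter.unusedVariables false

namespace Pool.Agent.R937.HZ

open Pool.Agent.W495.TA (IsSign)
open Pool.Agent.Y137.SF (rst mem_rst)

noncomputable section

variable {G M : Type} [Group G] [Fintype G] [AddCommGroup M] {c : G}

/-- Sign functions with stabilizers of index at most six. -/
def Sm (c : G) (f : G → ℤ) : Prop := IsSign c f ∧ (rst f).index ≤ 6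

theorem Sm.neg {f : G → ℤ} (h : Sm c f) : Sm c (-f) := ⟨IsSign.neg' h.1, by rw [rst_neg]; exact h.2⟩

theorem one_sq {f : G → ℤ} (hf : IsSign c f) (x : G) : f x * f x = 1 := by
  rcases hf.sign x with h | h <;> rw [h] <;> norm_num

section four

variable (hcomm : ∀ g, c * g = g * c) (hc2 : c * c = 1)

include hcomm hc2

/-- If a sign function has a stabilizer of index at most four, then the same is true for all sign
functions that are invariant under the normal core. -/
theorem index_le_four {f0 : G → ℤ} (hf0 : IsSign c f0) (h4 : (rst f0).index ≤ 4) {f : G → ℤ}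
    (hf : IsSign c f) (hN : (rst f0).normalCore ≤ rst f) : (rst f).index ≤ 4 := by
  classical
  let N : Subgroup G := (rst f0).normalCore
  let π : G →* G ⧸ N := QuotientGroup.mk' N
  have hπ : Function.Surjective π := QuotientGroup.mk'_surjective N
  have hker : ∀ a b : G, π a = π b → a⁻¹ * b ∈ N := fun a b h => QuotientGroup.eq.1 h
  have hcore : N ≤ rst f0 := Subgroup.normalCore_le _
  have hc2' : π c * π c = 1 := by
    rw [← map_mul, hc2, map_one]
  have hcomm' : ∀ g, π c * g = g * π c := by
    intro g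
    obtain ⟨g, rfl⟩ := hπ g
    rw [← map_mul, ← map_mul, hcomm]
  let b : G ⧸ N → ℤ := fun q => f (Function.surjInv hπ q)
  have hb : ∀ g, b (π g) = f g := by
    intro g
    have h1 : π (Function.surjInv hπ (π g)) = π g := Function.surjInv_eq hπ _
    have h3 := hN (hker _ _ h1) (Function.surjInv hπ (π g))
    rw [mul_inv_cancel_left] at h3
    exact h3.symm
  have hbs : IsSign (π c) b := by
    refine ⟨fun q => hf.sign _, fun q => ?_⟩
    obtain ⟨g, rfl⟩ := hπ q
    rw [smul_eq_mul, ← map_mul, hb, hb]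
    exact hf.odd g
  have h1 : (rst b).index ≤ 4 := by
    refine Pool.Agent.Y137.SF.index_rst_le (π c) hcomm' hc2' ((rst f0).map π) ?_ ?_ ?_ b hbs
    · rintro ⟨h, hh, hh'⟩
      have h1 := hcore (hker _ _ hh')
      have h2 := (rst f0).mul_mem hh h1
      rw [mul_inv_cancel_left] at h2
      exact c_notMem c hf0 h2
    · rw [← Subgroup.index_comap_of_surjective _ hπ]
      exact (Nat.le_of_dvd (Nat.pos_of_ne_zero Subgroup.index_ne_zero_of_finite)
        (Subgroup.index_dvd_of_le (Subgroup.le_comap_map π (rst f0)))).trans h4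
    · intro a ha
      obtain ⟨a, rfl⟩ := hπ a
      have h1 : a ∈ N := by
        intro b
        have h2 := ha (π b⁻¹)
        rw [← map_inv, inv_inv, ← map_mul, ← map_mul] at h2
        obtain ⟨h, hh, hh'⟩ := h2
        have h3 := hcore (hker _ _ hh')
        have h4 := (rst f0).mul_mem hh h3
        rw [mul_inv_cancel_left] at h4
        exact h4
      exact (QuotientGroup.eq_one_iff a).2 h1
  have h2 : (rst b).comap π ≤ rst f := by
    intro τ hτ σ
    rw [← hb, ← hb, map_mul]
    exact hτ (π σ)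
  have h3 := Subgroup.index_dvd_of_le h2
  rw [Subgroup.index_comap_of_surjective _ hπ] at h3
  exact (Nat.le_of_dvd (Nat.pos_of_ne_zero Subgroup.index_ne_zero_of_finite) h3).trans h1

/-- The relations between sign functions that are invariant under the normal core of a stabilizer
of index at most four. -/
theorem gam_four (D : (G → ℤ) → M) (hneg : ∀ f, Sm c f → D (-f) = -D f)
    (h4 : ∀ f : Fin 4 → G → ℤ, (∀ k, Sm c (f k)) → (∀ x, ∑ k, f k x = 0) → ∑ k, D (f k) = 0)
    {f0 : G → ℤ} (hf0 : IsSign c f0) (hi : (rst f0).index ≤ 4) :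
    Rl D fun f => IsSign c f ∧ (rst f0).normalCore ≤ rst f := by
  have h1 : ∀ f, IsSign c f → (rst f0).normalCore ≤ rst f → Sm c f := fun f h h' =>
    ⟨h, (index_le_four hcomm hc2 hf0 hi h h').trans (by norm_num)⟩
  exact rl_inv hcomm hc2 _ (fun h => c_notMem c hf0 (Subgroup.normalCore_le _ h)) D
    (fun f h h' => hneg f (h1 f h h')) fun f h h' => h4 f (fun k => h1 _ (h k).1 (h k).2) h'

end four

section lab

variable (hcomm : ∀ g, c * g = g * c) (hc2 : c * c = 1)

/-- Sign functions are semi-invariant under the subgroup generated by the stabilizer and `c`. -/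
theorem semi {f : G → ℤ} (hf : IsSign c f) {b : G} (hb : b ∈ VV c hcomm hc2 (rst f)) (x : G) :
    f (x * b) = f 1 * f b * f x := by
  have h1 := one_sq hf 1
  rcases hb with hb | hb
  · have h2 := hb 1
    rw [one_mul] at h2
    rw [hb x, h2, h1, one_mul]
  · have h2 := hb 1
    rw [one_mul] at h2
    have h3 := hb x
    have e1 : f (c * b) = -f b := hf.odd b
    have e2 : f (x * (c * b)) = -f (x * b) := by
      rw [← mul_assoc, ← hcomm x, mul_assoc]
      exact hf.odd _
    have e3 : f b = -f 1 := by omega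
    rw [e3, mul_neg, h1]
    omega

/-- The label of a function. -/
def lab (A : Subgroup G) (f : G → ℤ) : A → ℤ := fun a => f 1 * f a

theorem lab_mul {A : Subgroup G} {f : G → ℤ} (hf : IsSign c f)
    (hA : A ≤ VV c hcomm hc2 (rst f)) (a b : A) : lab A f (a * b) = lab A f a * lab A f b := by
  have h1 := one_sq hf 1
  change f 1 * f (a * b) = f 1 * f a * (f 1 * f b)
  rw [semi hcomm hc2 hf (hA b.2)]
  ring

theorem lab_sign {A : Subgroup G} {f : G → ℤ} (hf : IsSign c f) (a : A) :
    lab A f a = 1 ∨ lab A f a = -1 := by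
  change f 1 * f a = 1 ∨ f 1 * f a = -1
  rcases hf.sign 1 with h | h <;> rcases hf.sign a with h' | h' <;> rw [h, h'] <;> norm_num

include hcomm hc2 in
/-- Splitting according to the labels. -/
theorem lab_split {A : Subgroup G} (P : (G → ℤ) → Prop)
    (hP : ∀ f, P f → IsSign c f ∧ A ≤ VV c hcomm hc2 (rst f)) {D : (G → ℤ) → M}
    (h : ∀ f0, P f0 → Rl D fun f => P f ∧ lab A f = lab A f0) : Rl D P := by
  classical
  refine Rl.split (lab A) (fun ι _ m f hf hr i0 v _ hv x => ?_) h
  have h1 : ∑ a : A, v a * ∑ i, m i * f i (x * a) = 0 :=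
    Finset.sum_eq_zero fun a _ => by rw [hr, mul_zero]
  have h2 : ∀ i, ∑ a : A, v a * lab A (f i) a =
      if lab A (f i) = v then (Fintype.card A : ℤ) else 0 := by
    intro i
    obtain ⟨hfi, hAi⟩ := hP _ (hf i)
    obtain ⟨hf0, hA0⟩ := hP _ (hf i0)
    split_ifs with h3
    · rw [← h3, Finset.sum_congr rfl fun a _ => ?_, Finset.sum_const, Finset.card_univ]
      · exact (nsmul_one _)
      · rcases lab_sign (A := A) hfi a with h4 | h4 <;> rw [h4] <;> norm_num
    · obtain ⟨a0, ha0⟩ : ∃ a0, lab A (f i) a0 ≠ v a0 := by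
        by_contra h4
        push Not at h4
        exact h3 (funext h4)
      have h5 : v a0 * lab A (f i) a0 = -1 := by
        rw [← hv] at ha0 ⊢
        rcases lab_sign (A := A) hfi a0 with h4 | h4 <;>
          rcases lab_sign (A := A) hf0 a0 with h6 | h6 <;> rw [h4, h6] at ha0 ⊢ <;> omega
      have h6 : ∑ a : A, v a * lab A (f i) a = -∑ a : A, v a * lab A (f i) a := by
        conv_lhs => rw [← Equiv.sum_comp (Equiv.mulRight a0)]
        rw [← Finset.sum_neg_distrib]
        refine Finset.sum_congr rfl fun a _ => ?_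
        rw [Equiv.coe_mulRight, lab_mul hcomm hc2 hfi hAi, ← hv, lab_mul hcomm hc2 hf0 hA0, hv]
        linear_combination (v a * lab A (f i) a) * h5
      omega
  have h3 : ∑ a : A, v a * ∑ i, m i * f i (x * a) =
      (Fintype.card A : ℤ) * ∑ i with lab A (f i) = v, m i * f i x := by
    simp only [Finset.mul_sum]
    rw [Finset.sum_comm, Finset.sum_filter]
    refine Finset.sum_congr rfl fun i _ => ?_
    have h4 : ∀ a : A, v a * (m i * f i (x * a)) = (v a * lab A (f i) a) * (m i * f i x) := by
      intro a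
      rw [semi hcomm hc2 (hP _ (hf i)).1 ((hP _ (hf i)).2 a.2)]
      change _ = (v a * (f i 1 * f i a)) * (m i * f i x)
      ring
    rw [Finset.sum_congr rfl fun a _ => h4 a, ← Finset.sum_mul, h2]
    split_ifs
    · rfl
    · rw [zero_mul]
  rw [h3] at h1
  have h4 : (Fintype.card A : ℤ) ≠ 0 := by
    exact_mod_cast Fintype.card_ne_zero
  exact (mul_eq_zero.1 h1).resolve_left h4

/-- Functions with a given label on a subgroup of index three. -/
theorem rl_three {A : Subgroup G} (hA3 : A.index = 3) (D : (G → ℤ) → M)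
    (hneg : ∀ f, Sm c f → D (-f) = -D f)
    (h4 : ∀ f : Fin 4 → G → ℤ, (∀ k, Sm c (f k)) → (∀ x, ∑ k, f k x = 0) → ∑ k, D (f k) = 0)
    {f1 : G → ℤ} (hf1 : IsSign c f1) (hA1 : A ≤ VV c hcomm hc2 (rst f1)) :
    Rl D fun f => (IsSign c f ∧ A ≤ VV c hcomm hc2 (rst f)) ∧ lab A f = lab A f1 := by
  have hcA : c ∈ A := c_mem_of_index_three c hcomm hc2 A hA3
  let R : Subgroup G := A ⊓ rst f1
  have hcR : c ∉ R := fun h => c_notMem c hf1 h.2
  have hVR : A ≤ VV c hcomm hc2 R := by
    intro a ha
    rcases hA1 ha with h | h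
    · exact Or.inl ⟨ha, h⟩
    · exact Or.inr ⟨A.mul_mem hcA ha, h⟩
  have hR6 : R.index ≤ 6 := by
    rw [index_VV c hcomm hc2 R hcR]
    have h1 := Nat.le_of_dvd (by rw [hA3]; norm_num) (Subgroup.index_dvd_of_le hVR)
    omega
  have hs : ∀ f, IsSign c f → R ≤ rst f → Sm c f := fun f h h' =>
    ⟨h, (Nat.le_of_dvd (Nat.pos_of_ne_zero Subgroup.index_ne_zero_of_finite)
      (Subgroup.index_dvd_of_le h')).trans hR6⟩
  refine (rl_inv hcomm hc2 R hcR D (fun f h h' => hneg f (hs f h h'))
    fun f h h' => h4 f (fun k => hs _ (h k).1 (h k).2) h').mono ?_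
  rintro f ⟨⟨hf, hA⟩, hl⟩
  refine ⟨hf, fun r hr x => ?_⟩
  have h1 := congrFun hl ⟨r, hr.1⟩
  change f 1 * f r = f1 1 * f1 r at h1
  have h2 := hr.2 1
  rw [one_mul] at h2
  rw [semi hcomm hc2 hf (hA hr.1), h1, h2, one_sq hf1, one_mul]

end lab

section sub

/-- The index of a subgroup in its product with a normal subgroup. -/
theorem relIndex_sup' (R N : Subgroup G) [N.Normal] : R.relIndex (N ⊔ R) = R.relIndex N := by
  have e1 := Subgroup.relIndex_mul_relIndex (N ⊓ R) N (N ⊔ R) inf_le_left le_sup_left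
  have e2 := Subgroup.relIndex_mul_relIndex (N ⊓ R) R (N ⊔ R) inf_le_right le_sup_right
  have e3 : N.relIndex (N ⊔ R) = N.relIndex R := by
    rw [sup_comm]
    exact Subgroup.relIndex_sup_right R N
  have e4 : (N ⊓ R).relIndex R = N.relIndex R := Subgroup.inf_relIndex_right N R
  have e5 : (N ⊓ R).relIndex N = R.relIndex N := by
    rw [inf_comm]
    exact Subgroup.inf_relIndex_right R N
  have e6 : N.relIndex R ≠ 0 := Subgroup.index_ne_zero_of_finite (H := N.subgroupOf R)
  rw [e3, e5] at e1
  rw [e4, ← e1, mul_comm] at e2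
  exact Nat.eq_of_mul_eq_mul_right (Nat.pos_of_ne_zero e6) e2

/-- A normal subgroup is contained in a subgroup of index three, if the squares of its elements are
contained in the normal core. -/
theorem le_of_sq (A B : Subgroup G) [A.Normal] (hB : B.index = 3)
    (hsq : ∀ a ∈ A, a * a ∈ B.normalCore) : A ≤ B := by
  by_contra hAB
  have h1 := Subgroup.relIndex_mul_index (le_sup_right : B ≤ A ⊔ B)
  have h2 : B.relIndex (A ⊔ B) ≠ 1 := by
    rw [ne_eq, Subgroup.relIndex_eq_one]
    intro h
    exact hAB (le_sup_left.trans h)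
  have h3 : B.relIndex (A ⊔ B) = 3 := by
    rw [hB] at h1
    exact ((Nat.dvd_prime Nat.prime_three).1 (Dvd.intro _ h1)).resolve_left h2
  rw [relIndex_sup'] at h3
  let C : Subgroup A := B.normalCore.subgroupOf A
  have h4 : 3 ∣ Nat.card (A ⧸ C) := by
    rw [← Subgroup.index_eq_card, ← h3]
    exact Subgroup.index_dvd_of_le (Subgroup.comap_mono (Subgroup.normalCore_le B))
  have : Fact (Nat.Prime 3) := ⟨Nat.prime_three⟩
  obtain ⟨q, hq⟩ := exists_prime_orderOf_dvd_card' 3 h4
  obtain ⟨a, rfl⟩ := QuotientGroup.mk_surjective q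
  have h5 : ((a : A ⧸ C)) ^ 2 = 1 := by
    rw [← QuotientGroup.mk_pow, QuotientGroup.eq_one_iff, pow_two]
    exact Subgroup.mem_subgroupOf.2 (hsq a a.2)
  have h6 := orderOf_dvd_of_pow_eq_one h5
  rw [hq] at h6
  norm_num at h6

end sub

section six

variable (hcomm : ∀ g, c * g = g * c) (hc2 : c * c = 1)

/-- The elements which fix a label on a normal subgroup. -/
def StL (A : Subgroup G) [hA : A.Normal] (ψ : A → ℤ) : Subgroup G where
  carrier := {b | ∀ a : A, ψ ⟨b * a * b⁻¹, hA.conj_mem a a.2 b⟩ = ψ a}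
  one_mem' := by
    intro a
    congr 1
    exact Subtype.ext (by change 1 * (a : G) * 1⁻¹ = a; group)
  mul_mem' := by
    intro b b' hb hb' a
    rw [← hb' a, ← hb ⟨b' * a * b'⁻¹, hA.conj_mem a a.2 b'⟩]
    congr 1
    exact Subtype.ext (by
      change b * b' * (a : G) * (b * b')⁻¹ = b * (b' * a * b'⁻¹) * b⁻¹
      group)
  inv_mem' := by
    intro b hb a
    rw [← hb ⟨b⁻¹ * a * b⁻¹⁻¹, hA.conj_mem a a.2 b⁻¹⟩]
    congr 1
    exact Subtype.ext (by
      change b * (b⁻¹ * (a : G) * b⁻¹⁻¹) * b⁻¹ = a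
      group)

theorem VV_le_StL {A : Subgroup G} [hAn : A.Normal] {f : G → ℤ} (hf : IsSign c f)
    (hA : A ≤ VV c hcomm hc2 (rst f)) : VV c hcomm hc2 (rst f) ≤ StL A (lab A f) := by
  intro b hb a
  have h1 := one_sq hf 1
  change f 1 * f (b * a * b⁻¹) = f 1 * f a
  have h2 := semi hcomm hc2 hf (Subgroup.inv_mem _ hb) (b * a)
  have h3 := semi hcomm hc2 hf (hA a.2) b
  have h4 := semi hcomm hc2 hf (Subgroup.inv_mem _ hb) b
  rw [mul_inv_cancel] at h4
  rw [h2, h3]
  linear_combination (-(f 1 * f 1 * f a)) * h4 + (f 1 * f a) * h1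

/-- An odd quadratic character with a given restriction to a normal subgroup. -/
theorem exists_char {A : Subgroup G} [hAn : A.Normal] {f : G → ℤ} (hf : IsSign c f)
    (hA : A ≤ VV c hcomm hc2 (rst f)) (hinv : ∀ b, b ∈ StL A (lab A f))
    (hodd : Odd (VV c hcomm hc2 (rst f)).index) :
    ∃ V : G → ℤ, (∀ g, V g = 1 ∨ V g = -1) ∧ (∀ g g', V (g * g') = V g * V g') ∧ V c = -1 ∧
      ∀ a : A, V a = lab A f a := by
  classical
  let B : Subgroup G := VV c hcomm hc2 (rst f)
  let _ : Fintype (G ⧸ B) := Fintype.ofFinite _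
  have hcard : Odd (Fintype.card (G ⧸ B)) := by
    rw [← Nat.card_eq_fintype_card]
    exact hodd
  let h : G → ℤ := fun g => ∏ x : G ⧸ B, f (g * x.out)
  have hs : ∀ g, h g = 1 ∨ h g = -1 := by
    intro g
    change (∏ x : G ⧸ B, f (g * x.out)) = 1 ∨ (∏ x : G ⧸ B, f (g * x.out)) = -1
    induction (Finset.univ : Finset (G ⧸ B)) using Finset.induction_on with
    | empty => left; rw [Finset.prod_empty]
    | insert a s ha ih =>
      rw [Finset.prod_insert ha]
      rcases ih with ih | ih <;> rcases hf.sign (g * a.out) with h' | h' <;> rw [ih, h'] <;> norm_num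
  have hsq : ∀ g, h g * h g = 1 := fun g => by
    rcases hs g with h' | h' <;> rw [h'] <;> norm_num
  have hmul : ∀ g g', h (g * g') = h 1 * h g' * h g := by
    have key : ∀ g g', h (g * g') = (∏ x : G ⧸ B, (f 1 * f ((g' • x).out⁻¹ * (g' * x.out)))) * h g := by
      intro g g'
      have e1 : h g = ∏ x : G ⧸ B, f (g * (g' • x).out) :=
        (Equiv.prod_comp (MulAction.toPerm g') fun x : G ⧸ B => f (g * x.out)).symm
      rw [e1, ← Finset.prod_mul_distrib]
      change (∏ x : G ⧸ B, f (g * g' * x.out)) = _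
      refine Finset.prod_congr rfl fun x _ => ?_
      have h2 : (g' • x).out⁻¹ * (g' * x.out) ∈ B := by
        rw [← QuotientGroup.eq, QuotientGroup.out_eq']
        have h3 : ((g' * x.out : G) : G ⧸ B) = g' • ((x.out : G) : G ⧸ B) := rfl
        rw [h3, QuotientGroup.out_eq']
      have h3 := semi hcomm hc2 hf h2 (g * (g' • x).out)
      rw [← h3]
      congr 1
      group
    intro g g'
    have h1 := key 1 g'
    rw [one_mul] at h1
    have h2 := hsq 1
    rw [key g g']
    linear_combination (-(h g * h 1)) * h1 - (∏ x : G ⧸ B, (f 1 * f ((g' • x).out⁻¹ * (g' * x.out)))) * h g * h2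
  refine ⟨fun g => h 1 * h g, fun g => ?_, fun g g' => ?_, ?_, fun a => ?_⟩
  · change h 1 * h g = 1 ∨ h 1 * h g = -1
    rcases hs 1 with h1 | h1 <;> rcases hs g with h2 | h2 <;> rw [h1, h2] <;> norm_num
  · change h 1 * h (g * g') = h 1 * h g * (h 1 * h g')
    rw [hmul]
    ring
  · change h 1 * h c = -1
    have h1 : h c = -h 1 := by
      change (∏ x : G ⧸ B, f (c * x.out)) = -∏ x : G ⧸ B, f (1 * x.out)
      have h2 : ∀ x : G ⧸ B, f (c * x.out) = -1 * f (1 * x.out) := by
        intro x
        rw [one_mul, neg_one_mul]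
        exact hf.odd _
      rw [Finset.prod_congr rfl fun x _ => h2 x, Finset.prod_mul_distrib, Finset.prod_const,
        Finset.card_univ, hcard.neg_one_pow, neg_one_mul]
    rw [h1, mul_neg, hsq]
  · change h 1 * h a = lab A f a
    have h1 : h a = lab A f a * h 1 := by
      change (∏ x : G ⧸ B, f (a * x.out)) = lab A f a * ∏ x : G ⧸ B, f (1 * x.out)
      have h2 : ∀ x : G ⧸ B, f (a * x.out) = lab A f a * f (1 * x.out) := by
        intro x
        have h3 : x.out⁻¹ * a * x.out ∈ A := by
          have := hAn.conj_mem a a.2 x.out⁻¹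
          rwa [inv_inv] at this
        have h4 := hinv x.out ⟨_, h3⟩
        have h5 := semi hcomm hc2 hf (hA h3) x.out
        have h6 : x.out * (x.out⁻¹ * a * x.out) = a * x.out := by group
        rw [h6] at h5
        rw [h5, one_mul]
        congr 1
        change lab A f ⟨_, h3⟩ = _
        rw [← h4]
        congr 1
        exact Subtype.ext (by
          change x.out * (x.out⁻¹ * a * x.out) * x.out⁻¹ = (a : G)
          group)
      rw [Finset.prod_congr rfl fun x _ => h2 x, Finset.prod_mul_distrib, Finset.prod_const,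
        Finset.card_univ]
      congr 1
      rcases lab_sign (A := A) hf a with h4 | h4
      · rw [h4, one_pow]
      · rw [h4, hcard.neg_one_pow]
    rw [h1]
    linear_combination (lab A f a) * hsq 1

end six

end

end Pool.Agent.R937.HZ
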