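import Pool.Agent.R937.HZ.Gam

/-!
# Relations between sign functions with stabilizers of index six: the symmetric group
-/

set_option autoImplicit false
set_option linter.unusedSectionVars false
set_option linter.unusedVariables false

namespace Pool.Agent.R937.HZ

open Pool.Agent.W495.TA (IsSign)
open Pool.Agent.Y137.SF (rst mem_rst)

noncomputable section

variable {G M : Type} [Group G] [Fintype G] [AddCommGroup M] {c : G}

/-- The homomorphism to the symmetric group. -/
theorem exists_theta (B : Subgroup G) (hB : B.index = 3) (hne : ¬ B ≤ B.normalCore) :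
    ∃ θ : G →* P3, Function.Surjective θ ∧ (∀ g, θ g = 1 ↔ g ∈ B.normalCore) ∧
      B.normalCore.index = 6 := by
  classical
  have h3 : Nat.card (G ⧸ B) = Nat.card (Fin 3) := by
    rw [← Subgroup.index_eq_card, hB, Nat.card_eq_fintype_card, Fintype.card_fin]
  obtain ⟨e⟩ : Nonempty ((G ⧸ B) ≃ Fin 3) := Finite.card_eq.1 h3
  let θ : G →* P3 := (Equiv.permCongrHom e).toMonoidHom.comp (MulAction.toPermHom G (G ⧸ B))
  have hker : ∀ g, θ g = 1 ↔ g ∈ B.normalCore := by
    intro g
    rw [Subgroup.normalCore_eq_ker, MonoidHom.mem_ker]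
    change Equiv.permCongrHom e (MulAction.toPermHom G (G ⧸ B) g) = 1 ↔ _
    exact map_eq_one_iff _ (Equiv.permCongrHom e).injective
  have hk : θ.ker = B.normalCore := by
    ext g
    rw [MonoidHom.mem_ker]
    exact hker g
  have h1 : B.normalCore.index = Nat.card θ.range := by
    rw [← hk, Subgroup.index_ker]
  have h2 := Subgroup.relIndex_mul_index (Subgroup.normalCore_le B)
  have h4 : B.normalCore.relIndex B ≠ 1 := by
    rw [ne_eq, Subgroup.relIndex_eq_one]
    exact hne
  have h5 : B.normalCore.relIndex B ≠ 0 :=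
    Subgroup.index_ne_zero_of_finite (H := B.normalCore.subgroupOf B)
  have h6 : Nat.card P3 = 6 := by
    rw [Nat.card_eq_fintype_card]
    rfl
  have h7 : Nat.card θ.range ≤ Nat.card P3 := Subgroup.card_le_card_group _
  have h8 : Nat.card θ.range = 6 := by
    rw [hB] at h2
    omega
  refine ⟨θ, ?_, hker, h1.trans h8⟩
  rw [← MonoidHom.range_eq_top]
  exact Subgroup.eq_top_of_card_eq _ (h8.trans h6.symm)

theorem inv_three (σ : P3) (h : σ * σ = 1) (h' : σ ≠ 1) : ∃ p, σ = sw p := by
  revert σ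
  decide

theorem sw_sq (p : Fin 3) : sw p * sw p = 1 := by
  revert p
  decide

theorem sw_ne (p : Fin 3) : sw p ≠ 1 := by
  revert p
  decide

variable (hcomm : ∀ g, c * g = g * c) (hc2 : c * c = 1)

/-- The members. -/
def Mem (A : Subgroup G) (f : G → ℤ) : Prop :=
  IsSign c f ∧ A ≤ VV c hcomm hc2 (rst f) ∧
    ((VV c hcomm hc2 (rst f)).index = 1 ∨ (VV c hcomm hc2 (rst f)).index = 3)

/-- An element of order two modulo `A`. -/
theorem exists_t {A B : Subgroup G} [A.Normal] (hA : A.index = 6) (hB : B.index = 1 ∨ B.index = 3)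
    (hAB : A ≤ B) : ∃ t ∈ B, t ∉ A ∧ t * t ∈ A := by
  classical
  have h1 := Subgroup.relIndex_mul_index hAB
  have h2 : 2 ∣ Nat.card (B ⧸ A.subgroupOf B) := by
    rw [← Subgroup.index_eq_card]
    change 2 ∣ A.relIndex B
    rcases hB with h | h <;> rw [h, hA] at h1 <;> omega
  have : Fact (Nat.Prime 2) := ⟨Nat.prime_two⟩
  obtain ⟨q, hq⟩ := exists_prime_orderOf_dvd_card' 2 h2
  obtain ⟨t, rfl⟩ := QuotientGroup.mk_surjective q
  refine ⟨t, t.2, fun h => ?_, ?_⟩
  · have h3 : ((t : B ⧸ A.subgroupOf B)) = 1 := by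
      rw [QuotientGroup.eq_one_iff]
      exact Subgroup.mem_subgroupOf.2 h
    rw [h3, orderOf_one] at hq
    norm_num at hq
  · have h3 : ((t : B ⧸ A.subgroupOf B)) ^ 2 = 1 := by
      rw [← hq]
      exact pow_orderOf_eq_one _
    rw [← QuotientGroup.mk_pow, QuotientGroup.eq_one_iff, pow_two] at h3
    exact Subgroup.mem_subgroupOf.1 h3

/-- The case of the symmetric group. -/
theorem rl_s3 {B0 : Subgroup G} (hB0 : B0.index = 3) (hne : ¬ B0 ≤ B0.normalCore) (D : (G → ℤ) → M)
    (hneg : ∀ f, Sm c f → D (-f) = -D f)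
    (h4 : ∀ f : Fin 4 → G → ℤ, (∀ k, Sm c (f k)) → (∀ x, ∑ k, f k x = 0) → ∑ k, D (f k) = 0)
    {f1 : G → ℤ} (hf1 : Mem hcomm hc2 B0.normalCore f1)
    (hinv : ∀ b, b ∈ StL B0.normalCore (lab B0.normalCore f1)) :
    Rl D fun f => Mem hcomm hc2 B0.normalCore f ∧
      lab B0.normalCore f = lab B0.normalCore f1 := by
  classical
  obtain ⟨θ, hθ, hker, hidx⟩ := exists_theta B0 hB0 hne
  obtain ⟨V, hV1, hVm, hVc, hVA⟩ := exists_char hcomm hc2 hf1.1 hf1.2.1 hinv (by
    rcases hf1.2.2 with h | h <;> rw [h]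
    · exact odd_one
    · exact ⟨1, rfl⟩)
  have hVsq : ∀ g, V g * V g = 1 := fun g => by
    rcases hV1 g with h | h <;> rw [h] <;> norm_num
  have hcB : c ∈ B0.normalCore := by
    intro b
    rw [← hcomm, mul_inv_cancel_right]
    exact c_mem_of_index_three c hcomm hc2 B0 hB0
  have hθc : θ c = 1 := (hker c).2 hcB
  -- the functions that belong to good functions
  have hV1' : V 1 = 1 := by
    have h1 := hVm 1 1
    rw [one_mul] at h1
    rcases hV1 1 with h | h
    · exact h
    · rw [h] at h1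
      norm_num at h1
  have hsm : ∀ F, Good F → Sm c fun g => V g * F (θ g) := by
    rintro F ⟨hF1, b, p, hF2⟩
    have hs : IsSign c fun g => V g * F (θ g) := by
      refine ⟨fun g => ?_, fun g => ?_⟩
      · rcases hV1 g with h | h <;> rcases hF1 (θ g) with h' | h' <;> rw [h, h'] <;> norm_num
      · change V (c * g) * F (θ (c * g)) = -(V g * F (θ g))
        rw [hVm, hVc, map_mul, hθc, one_mul]
        ring
    refine ⟨hs, ?_⟩
    -- the elements of the preimage of the subgroup generated by the transposition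
    have h1 : ∀ x : G, (∃ e : ℤ, (e = 1 ∨ e = -1) ∧ ∀ g, V (g * x) * F (θ (g * x)) =
        e * (V g * F (θ g))) → x ∈ VV c hcomm hc2 (rst fun g => V g * F (θ g)) := by
      rintro x ⟨e, rfl | rfl, he⟩
      · left
        intro g
        change V (g * x) * F (θ (g * x)) = V g * F (θ g)
        rw [he, one_mul]
      · right
        intro g
        change V (g * (c * x)) * F (θ (g * (c * x))) = V g * F (θ g)
        have e1 : g * (c * x) = c * (g * x) := by rw [← mul_assoc, ← hcomm, mul_assoc]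
        rw [e1, hVm, hVc, map_mul θ c, hθc, one_mul, neg_one_mul, neg_mul, he]
        ring
    have h2 : (Subgroup.zpowers (sw p)).comap θ ≤ VV c hcomm hc2 (rst fun g => V g * F (θ g)) := by
      intro x hx
      have h3 : θ x = 1 ∨ θ x = sw p := by
        obtain ⟨k, hk⟩ := Subgroup.mem_zpowers_iff.1 (Subgroup.mem_comap.1 hx)
        rcases Int.even_or_odd k with hk' | hk'
        · left
          obtain ⟨l, rfl⟩ := hk'
          rw [← hk, ← two_mul, zpow_mul, zpow_two, sw_sq, one_zpow]
        · right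
          obtain ⟨l, rfl⟩ := hk'
          rw [← hk, zpow_add_one, zpow_mul, zpow_two, sw_sq, one_zpow, one_mul]
      rcases h3 with h3 | h3
      · exact h1 x ⟨V x, hV1 x, fun g => by
          rw [hVm, map_mul, h3, mul_one]
          ring⟩
      · refine h1 x ⟨V x * (if b then -1 else 1), ?_, fun g => ?_⟩
        · rcases hV1 x with h | h <;> rw [h] <;> cases b <;> simp
        · rw [hVm, map_mul, h3, hF2]
          ring
    have h3 : ((Subgroup.zpowers (sw p)).comap θ).index = 3 := by
      rw [Subgroup.index_comap_of_surjective _ hθ]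
      have h4 := Subgroup.index_mul_card (Subgroup.zpowers (sw p))
      have h5 : Nat.card (Subgroup.zpowers (sw p)) = 2 := by
        rw [Nat.card_zpowers]
        exact orderOf_eq_prime (by rw [pow_two, sw_sq]) (sw_ne p)
      have h6 : Nat.card P3 = 6 := by
        rw [Nat.card_eq_fintype_card]
        rfl
      rw [h5, h6] at h4
      omega
    have h5 := Subgroup.index_dvd_of_le h2
    rw [h3] at h5
    have h6 := Nat.le_of_dvd (by norm_num) h5
    rw [index_VV c hcomm hc2 _ (c_notMem c hs)]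
    omega
  -- the good functions of the members
  let s : P3 → G := Function.surjInv hθ
  have hs : ∀ σ, θ (s σ) = σ := fun σ => Function.surjInv_eq hθ σ
  let T : (G → ℤ) → P3 → ℤ := fun f σ => V (s σ) * f (s σ)
  have hT : ∀ f, (Mem hcomm hc2 B0.normalCore f ∧ lab B0.normalCore f = lab B0.normalCore f1) →
      ∀ g, T f (θ g) = V g * f g := by
    rintro f ⟨hf, hl⟩ g
    have h1 : g⁻¹ * s (θ g) ∈ B0.normalCore := by
      rw [← hker, map_mul, hs, map_inv, inv_mul_cancel]
    have h2 : s (θ g) = g * (g⁻¹ * s (θ g)) := by group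
    change V (s (θ g)) * f (s (θ g)) = _
    rw [h2, hVm, semi hcomm hc2 hf.1 (hf.2.1 h1)]
    have h3 := hVA ⟨_, h1⟩
    rw [← hl] at h3
    change V (g⁻¹ * s (θ g)) = f 1 * f (g⁻¹ * s (θ g)) at h3
    rw [← h3]
    linear_combination (V g * f g) * hVsq (g⁻¹ * s (θ g))
  have hg : ∀ f, (Mem hcomm hc2 B0.normalCore f ∧ lab B0.normalCore f = lab B0.normalCore f1) →
      Good (T f) := by
    rintro f hf
    refine ⟨fun σ => ?_, ?_⟩
    · obtain ⟨g, rfl⟩ := hθ σ
      rw [hT f hf]
      rcases hV1 g with h | h <;> rcases hf.1.1.sign g with h' | h' <;> rw [h, h'] <;> norm_num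
    · obtain ⟨t, htB, htA, htt⟩ := exists_t hidx hf.1.2.2 hf.1.2.1
      obtain ⟨p, hp⟩ := inv_three (θ t) (by rw [← map_mul]; exact (hker _).2 htt)
        (fun h => htA ((hker t).1 h))
      have h1 : ∀ σ, T f (σ * sw p) = (V t * (f 1 * f t)) * T f σ := by
        intro σ
        obtain ⟨g, rfl⟩ := hθ σ
        rw [← hp, ← map_mul, hT f hf, hT f hf, hVm, semi hcomm hc2 hf.1.1 htB]
        ring
      have h2 : V t * (f 1 * f t) = 1 ∨ V t * (f 1 * f t) = -1 := by
        rcases hV1 t with h | h <;> rcases hf.1.1.sign 1 with h' | h' <;>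
          rcases hf.1.1.sign t with h'' | h'' <;> rw [h, h', h''] <;> norm_num
      rcases h2 with h2 | h2
      · exact ⟨false, p, fun σ => by rw [h1, h2]; simp⟩
      · exact ⟨true, p, fun σ => by rw [h1, h2]; simp⟩
  have hback : ∀ f, (Mem hcomm hc2 B0.normalCore f ∧ lab B0.normalCore f = lab B0.normalCore f1) →
      (fun g => V g * T f (θ g)) = f := by
    intro f hf
    funext g
    rw [hT f hf]
    linear_combination (f g) * hVsq g
  intro ι _ m f hf hr
  have h1 := rl_good (fun F => D fun g => V g * F (θ g)) (fun F hF => by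
      have h2 := hneg _ (hsm F hF)
      beta_reduce
      rw [← h2]
      congr 1
      funext g
      rw [Pi.neg_apply, Pi.neg_apply, mul_neg])
    (fun F hF hsum => h4 (fun k g => V g * F k (θ g)) (fun k => hsm _ (hF k)) fun g => by
      rw [← Finset.mul_sum, hsum, mul_zero]) ι m (fun i => T (f i)) (fun i => hg _ (hf i)) (by
      intro σ
      obtain ⟨g, rfl⟩ := hθ σ
      rw [Finset.sum_congr rfl fun i _ => by rw [hT _ (hf i)]]
      have h2 : ∀ i, m i * (V g * f i g) = V g * (m i * f i g) := fun i => by ring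
      rw [Finset.sum_congr rfl fun i _ => h2 i, ← Finset.mul_sum, hr, mul_zero])
  rw [← h1]
  refine Finset.sum_congr rfl fun i _ => ?_
  beta_reduce
  rw [hback _ (hf i)]

/-- The relations between the members. -/
theorem rl_mem {B0 : Subgroup G} (hB0 : B0.index = 3) (D : (G → ℤ) → M)
    (hneg : ∀ f, Sm c f → D (-f) = -D f)
    (h4 : ∀ f : Fin 4 → G → ℤ, (∀ k, Sm c (f k)) → (∀ x, ∑ k, f k x = 0) → ∑ k, D (f k) = 0) :
    Rl D fun f => Mem hcomm hc2 B0.normalCore f := by
  refine lab_split hcomm hc2 (A := B0.normalCore) _ (fun f hf => ⟨hf.1, hf.2.1⟩) fun f1 hf1 => ?_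
  by_cases hinv : ∀ b, b ∈ StL B0.normalCore (lab B0.normalCore f1)
  · by_cases hne : B0 ≤ B0.normalCore
    · have h1 : B0.normalCore = B0 := le_antisymm (Subgroup.normalCore_le _) hne
      refine (rl_three hcomm hc2 (A := B0.normalCore) (by rw [h1]; exact hB0) D hneg h4 hf1.1
        hf1.2.1).mono ?_
      rintro f ⟨hf, hl⟩
      exact ⟨⟨hf.1, hf.2.1⟩, hl⟩
    · exact rl_s3 hcomm hc2 hB0 hne D hneg h4 hf1 hinv
  · -- the label is not invariant
    have key : ∀ f, Mem hcomm hc2 B0.normalCore f ∧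
        lab B0.normalCore f = lab B0.normalCore f1 →
        VV c hcomm hc2 (rst f) = StL B0.normalCore (lab B0.normalCore f1) ∧
          (StL B0.normalCore (lab B0.normalCore f1)).index = 3 := by
      rintro f ⟨hf, hl⟩
      have h1 := VV_le_StL hcomm hc2 hf.1 hf.2.1
      rw [hl] at h1
      have h2 : (StL B0.normalCore (lab B0.normalCore f1)).index ≠ 1 := by
        rw [ne_eq, Subgroup.index_eq_one]
        intro h
        exact hinv fun b => by rw [h]; exact Subgroup.mem_top b
      have h3 := Subgroup.relIndex_mul_index h1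
      rcases hf.2.2 with h | h
      · rw [h] at h3
        exact absurd (Nat.eq_one_of_mul_eq_one_left h3) h2
      · rw [h] at h3
        have h5 : (StL B0.normalCore (lab B0.normalCore f1)).index = 3 :=
          ((Nat.dvd_prime Nat.prime_three).1 (Dvd.intro_left _ h3)).resolve_left h2
        refine ⟨le_antisymm h1 ?_, h5⟩
        rw [← Subgroup.relIndex_eq_one]
        rw [h5] at h3
        omega
    have h3 : (StL B0.normalCore (lab B0.normalCore f1)).index = 3 := (key f1 ⟨hf1, rfl⟩).2
    refine lab_split hcomm hc2 (A := StL B0.normalCore (lab B0.normalCore f1)) _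
      (fun f hf => ⟨hf.1.1, (key f hf).1.ge⟩) fun f2 hf2 => ?_
    refine (rl_three hcomm hc2 h3 D hneg h4 hf2.1.1 (key f2 hf2).1.ge).mono ?_
    rintro f ⟨hf, hl⟩
    exact ⟨⟨hf.1.1, (key f hf).1.ge⟩, hl⟩

include hcomm hc2 in
/-- The relations between sign functions that are invariant under the normal core of a stabilizer
of index six. -/
theorem gam_six (D : (G → ℤ) → M) (hneg : ∀ f, Sm c f → D (-f) = -D f)
    (h4 : ∀ f : Fin 4 → G → ℤ, (∀ k, Sm c (f k)) → (∀ x, ∑ k, f k x = 0) → ∑ k, D (f k) = 0)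
    {f0 : G → ℤ} (hf0 : IsSign c f0) (hi : (rst f0).index = 6) :
    Rl D fun f => IsSign c f ∧ (rst f0).normalCore ≤ rst f ∧
      ((rst f).index = 2 ∨ (rst f).index = 6) := by
  have h1 := index_VV c hcomm hc2 _ (c_notMem c hf0)
  have hB0 : (VV c hcomm hc2 (rst f0)).index = 3 := by omega
  refine (rl_mem hcomm hc2 hB0 D hneg h4).mono ?_
  rintro f ⟨hf, hN, hfi⟩
  have h2 := index_VV c hcomm hc2 _ (c_notMem c hf)
  have h3 : (VV c hcomm hc2 (rst f)).index = 1 ∨ (VV c hcomm hc2 (rst f)).index = 3 := by omega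
  refine ⟨hf, ?_, h3⟩
  rcases h3 with h3 | h3
  · rw [Subgroup.index_eq_one] at h3
    rw [h3]
    exact le_top
  · refine le_of_sq _ _ h3 fun a ha => ?_
    have h5 : (rst f0).normalCore ≤ (VV c hcomm hc2 (rst f)).normalCore :=
      Subgroup.normal_le_normalCore.2 (hN.trans (le_VV c hcomm hc2 _))
    refine h5 fun b => ?_
    have h6 := ha b
    have h7 : b * (a * a) * b⁻¹ = (b * a * b⁻¹) * (b * a * b⁻¹) := by group
    rw [h7]
    rcases h6 with h | h
    · exact (rst f0).mul_mem h h
    · have h8 := (rst f0).mul_mem h h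
      have h9 : c * (b * a * b⁻¹) * (c * (b * a * b⁻¹)) = (b * a * b⁻¹) * (b * a * b⁻¹) := by
        generalize b * a * b⁻¹ = x
        rw [mul_assoc, ← mul_assoc x c x, ← hcomm x, mul_assoc c x x, ← mul_assoc c c, hc2, one_mul]
      rwa [h9] at h8

end

end Pool.Agent.R937.HZ
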