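import Pool.Agent.Y137.SF.Stab

/-!
# Relations between sign functions
-/

set_option autoImplicit false
set_option linter.unusedSectionVars false
set_option linter.unusedVariables false

namespace Pool.Agent.R937.HZ

open Pool.Agent.W495.TA (IsSign)
open Pool.Agent.Y137.SF (rst mem_rst)

noncomputable section

section rl

variable {G M : Type} [AddCommGroup M] (D : (G → ℤ) → M)

/-- The relations between the functions with the property `P` hold for their classes. -/
def Rl (P : (G → ℤ) → Prop) : Prop :=
  ∀ (ι : Type) [Fintype ι] (m : ι → ℤ) (f : ι → G → ℤ), (∀ i, P (f i)) →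
    (∀ g, ∑ i, m i * f i g = 0) → ∑ i, m i • D (f i) = 0

variable {D}

theorem Rl.mono {P P' : (G → ℤ) → Prop} (h : Rl D P) (h' : ∀ f, P' f → P f) : Rl D P' :=
  fun ι _ m f hf hr => h ι m f (fun i => h' _ (hf i)) hr

/-- Exact splitting. -/
theorem Rl.split {α : Type} (lab : (G → ℤ) → α) {P : (G → ℤ) → Prop}
    (hs : ∀ (ι : Type) [Fintype ι] (m : ι → ℤ) (f : ι → G → ℤ), (∀ i, P (f i)) →
      (∀ g, ∑ i, m i * f i g = 0) → ∀ (i0 : ι) (v : α) [DecidablePred fun i => lab (f i) = v],
        lab (f i0) = v → ∀ g, ∑ i with lab (f i) = v, m i * f i g = 0)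
    (h : ∀ f0, P f0 → Rl D fun f => P f ∧ lab f = lab f0) : Rl D P := by
  classical
  intro ι _ m f hf hr
  rw [← Finset.sum_fiberwise_of_maps_to (s := Finset.univ)
    (t := Finset.univ.image fun i => lab (f i)) (g := fun i => lab (f i))
    (fun i _ => Finset.mem_image_of_mem _ (Finset.mem_univ i))]
  refine Finset.sum_eq_zero fun v hv => ?_
  obtain ⟨i0, -, hi0⟩ := Finset.mem_image.1 hv
  have h1 := h (f i0) (hf i0) {i // lab (f i) = v} (fun i => m i.1) (fun i => f i.1)
    (fun i => ⟨hf _, i.2.trans hi0.symm⟩) (fun g => by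
      rw [← Finset.sum_subtype (Finset.univ.filter fun i => lab (f i) = v) (by simp)
        fun i => m i * f i g]
      exact hs ι m f hf hr i0 v hi0 g)
  rw [← Finset.sum_subtype (Finset.univ.filter fun i => lab (f i) = v) (by simp)
        fun i => m i • D (f i)] at h1
  exact h1

end rl

section exch

variable {X M : Type} [Fintype X] [AddCommGroup M] (c : X → X)

/-- Sign functions on a set with an involution. -/
def Sg (f : X → ℤ) : Prop := (∀ x, f x = 1 ∨ f x = -1) ∧ ∀ x, f (c x) = -f x

open Classical in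
/-- The relations between the sign functions on a set with an involution are generated by relations
with four terms. -/
theorem exchX (hc : ∀ x, c (c x) = x) (hne : ∀ x, c x ≠ x) (D : (X → ℤ) → M)
    (hneg : ∀ f, Sg c f → D (-f) = -D f)
    (h4 : ∀ f : Fin 4 → X → ℤ, (∀ k, Sg c (f k)) → (∀ x, ∑ k, f k x = 0) → ∑ k, D (f k) = 0)
    {ι : Type} [Fintype ι] (m : ι → ℤ) (f : ι → X → ℤ) (hf : ∀ i, Sg c (f i))
    (hr : ∀ x, ∑ i, m i * f i x = 0) (hX : Nonempty X) : ∑ i, m i • D (f i) = 0 := by
  rcases isEmpty_or_nonempty ι with hι | ⟨⟨i0⟩⟩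
  · simp
  set e : X → ℤ := f i0 with he
  have hes : Sg c e := hf i0
  let fl : Finset X → X → ℤ := fun U x => if x ∈ U ∨ c x ∈ U then -e x else e x
  have hfl : ∀ U x, fl U x = if x ∈ U ∨ c x ∈ U then -e x else e x := fun U x => rfl
  have hfls : ∀ U, Sg c (fl U) := by
    intro U
    refine ⟨fun x => ?_, fun x => ?_⟩
    · rw [hfl]
      rcases hes.1 x with h | h <;> split_ifs <;> omega
    · rw [hfl, hfl, hc, hes.2 x]
      by_cases h : x ∈ U ∨ c x ∈ U
      · rw [if_pos h, if_pos h.symm]
      · rw [if_neg h, if_neg fun h' => h h'.symm]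
  let ps : Finset X := Finset.univ.filter fun x => e x = 1
  have hps : ∀ x, x ∈ ps ↔ e x = 1 := fun x => by simp [ps]
  have hcps : ∀ x, x ∈ ps → c x ∉ ps := by
    intro x hx h
    rw [hps] at hx h
    rw [hes.2 x, hx] at h
    norm_num at h
  let δ : X → M := fun x => D e - D (fl {x})
  have key : ∀ U : Finset X, U ⊆ ps → D (fl U) = D e - ∑ x ∈ U, δ x := by
    intro U
    induction U using Finset.induction_on with
    | empty =>
      intro _
      have h1 : fl ∅ = e := by
        funext x
        rw [hfl, if_neg (by simp)]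
      rw [h1, Finset.sum_empty, sub_zero]
    | insert a U ha ih =>
      intro hU
      have haps : a ∈ ps := hU (Finset.mem_insert_self a U)
      have hUps : U ⊆ ps := fun x hx => hU (Finset.mem_insert_of_mem hx)
      have h1 := h4 ![fl (insert a U), e, -fl U, -fl {a}] (by
        intro k
        fin_cases k
        · exact hfls _
        · exact hes
        · refine ⟨fun x => ?_, fun x => ?_⟩
          · change -fl U x = 1 ∨ -fl U x = -1
            rcases (hfls U).1 x with h | h <;> rw [h] <;> norm_num
          · change -fl U (c x) = -(-fl U x)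
            rw [(hfls U).2]
        · refine ⟨fun x => ?_, fun x => ?_⟩
          · change -fl {a} x = 1 ∨ -fl {a} x = -1
            rcases (hfls {a}).1 x with h | h <;> rw [h] <;> norm_num
          · change -fl {a} (c x) = -(-fl {a} x)
            rw [(hfls {a}).2]) (by
        intro x
        rw [Fin.sum_univ_four]
        change fl (insert a U) x + e x + -fl U x + -fl {a} x = 0
        rw [hfl, hfl, hfl]
        by_cases hA : x ∈ U ∨ c x ∈ U
        · have hB : ¬ (x ∈ ({a} : Finset X) ∨ c x ∈ ({a} : Finset X)) := by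
            rw [Finset.mem_singleton, Finset.mem_singleton]
            rintro (h | h)
            · subst h
              rcases hA with h | h
              · exact ha h
              · exact hcps _ haps (hUps h)
            · rcases hA with h' | h'
              · have h2 := hcps _ (hUps h')
                rw [h] at h2
                exact h2 haps
              · rw [h] at h'
                exact ha h'
          have hC : x ∈ insert a U ∨ c x ∈ insert a U := by
            rw [Finset.mem_insert, Finset.mem_insert]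
            tauto
          rw [if_pos hA, if_neg hB, if_pos hC]
          ring
        · by_cases hB : x ∈ ({a} : Finset X) ∨ c x ∈ ({a} : Finset X)
          · have hC : x ∈ insert a U ∨ c x ∈ insert a U := by
              rw [Finset.mem_singleton, Finset.mem_singleton] at hB
              rw [Finset.mem_insert, Finset.mem_insert]
              tauto
            rw [if_neg hA, if_pos hB, if_pos hC]
            ring
          · have hC : ¬ (x ∈ insert a U ∨ c x ∈ insert a U) := by
              rw [Finset.mem_singleton, Finset.mem_singleton] at hB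
              rw [Finset.mem_insert, Finset.mem_insert]
              tauto
            rw [if_neg hA, if_neg hB, if_neg hC]
            ring)
      rw [Fin.sum_univ_four] at h1
      change D (fl (insert a U)) + D e + D (-fl U) + D (-fl {a}) = 0 at h1
      rw [hneg _ (hfls U), hneg _ (hfls {a}), ih hUps] at h1
      rw [Finset.sum_insert ha]
      have h2 : D (fl (insert a U)) = -(D e + -(D e - ∑ x ∈ U, δ x) + -D (fl {a})) := by
        rw [← sub_eq_zero, ← h1]
        abel
      rw [h2]
      change _ = D e - ((D e - D (fl {a})) + ∑ x ∈ U, δ x)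
      abel
  let U : ι → Finset X := fun i => ps.filter fun x => f i x = -1
  have hUps : ∀ i, U i ⊆ ps := fun i => Finset.filter_subset _ _
  have hU : ∀ i x, x ∈ U i ↔ e x = 1 ∧ f i x = -1 := fun i x => by
    simp only [U, Finset.mem_filter, hps]
  have hfU : ∀ i, f i = fl (U i) := by
    intro i
    funext x
    rw [hfl]
    have h1 := hes.2 x
    have h2 := (hf i).2 x
    rcases hes.1 x with h3 | h3 <;> rcases (hf i).1 x with h4 | h4
    · rw [if_neg (by rw [hU, hU, h1, h2, h3, h4]; norm_num), h3, h4]
    · rw [if_pos (Or.inl ((hU _ _).2 ⟨h3, h4⟩)), h3, h4]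
    · rw [if_pos (Or.inr ((hU _ _).2 ⟨by rw [h1, h3]; norm_num, by rw [h2, h4]⟩)), h3, h4]
      norm_num
    · rw [if_neg (by rw [hU, hU, h1, h2, h3, h4]; norm_num), h3, h4]
  have hmin : -e = fl ps := by
    funext x
    rw [hfl, Pi.neg_apply]
    have h1 := hes.2 x
    rcases hes.1 x with h3 | h3
    · rw [if_pos (Or.inl ((hps _).2 h3))]
    · rw [if_pos (Or.inr ((hps _).2 (by rw [h1, h3]; norm_num)))]
  have h2e : (2 : ℤ) • D e = ∑ x ∈ ps, δ x := by
    have h1 := key ps (Finset.Subset.refl _)
    rw [← hmin, hneg _ hes] at h1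
    have h2 : (2 : ℤ) • D e - ∑ x ∈ ps, δ x = D e + (D e - ∑ x ∈ ps, δ x) := by
      rw [two_smul]
      abel
    rw [← sub_eq_zero, h2, ← h1]
    abel
  -- the weights
  let T : X → ℤ := fun x => ∑ i, if x ∈ U i then m i else 0
  have hT : ∀ x ∈ ps, 2 * T x = ∑ i, m i := by
    intro x hx
    have h1 := hr x
    have h2 : ∀ i, m i * f i x = m i - 2 * (if x ∈ U i then m i else 0) := by
      intro i
      have h3 : e x = 1 := (hps x).1 hx
      rcases (hf i).1 x with h4 | h4
      · rw [if_neg (by rw [hU, h4]; norm_num), h4]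
        ring
      · rw [if_pos ((hU _ _).2 ⟨h3, h4⟩), h4]
        ring
    rw [Finset.sum_congr rfl fun i _ => h2 i, Finset.sum_sub_distrib, ← Finset.mul_sum] at h1
    change 2 * ∑ i, (if x ∈ U i then m i else 0) = _
    linarith
  obtain ⟨x0, hx0⟩ : ∃ x0, x0 ∈ ps := by
    obtain ⟨x⟩ := hX
    rcases hes.1 x with h | h
    · exact ⟨x, (hps x).2 h⟩
    · exact ⟨c x, (hps _).2 (by rw [hes.2 x, h, neg_neg])⟩
  have hTx : ∀ x ∈ ps, T x = T x0 := by
    intro x hx
    have h1 := hT x hx
    have h2 := hT x0 hx0
    omega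
  have h1 : ∑ i, m i • D (f i) = (∑ i, m i) • D e - ∑ x ∈ ps, T x • δ x := by
    have h2 : ∀ i, m i • D (f i) = m i • D e - ∑ x ∈ ps, (if x ∈ U i then m i else 0) • δ x := by
      intro i
      have h5 : ∑ x ∈ ps, (if x ∈ U i then m i else 0) • δ x = ∑ x ∈ U i, m i • δ x := by
        rw [← Finset.sum_subset (hUps i) fun x _ hx => by rw [if_neg hx, zero_smul]]
        exact Finset.sum_congr rfl fun x hx => by rw [if_pos hx]
      rw [h5, ← Finset.smul_sum, hfU i, key _ (hUps i), smul_sub]
    rw [Finset.sum_congr rfl fun i _ => h2 i, Finset.sum_sub_distrib, ← Finset.sum_smul,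
      Finset.sum_comm]
    congr 1
    refine Finset.sum_congr rfl fun x _ => ?_
    rw [← Finset.sum_smul]
  rw [h1, ← hT x0 hx0, Finset.sum_congr rfl fun x hx => by rw [hTx x hx], ← Finset.smul_sum, ← h2e,
    smul_smul, mul_comm, sub_self]

end exch

section group

variable {G M : Type} [Group G] [Fintype G] [AddCommGroup M] {c : G}

theorem IsSign.neg' {f : G → ℤ} (h : IsSign c f) : IsSign c (-f) := by
  refine ⟨fun x => ?_, fun x => ?_⟩
  · rw [Pi.neg_apply]
    rcases h.sign x with h1 | h1 <;> rw [h1] <;> norm_num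
  · rw [Pi.neg_apply, Pi.neg_apply, h.odd]

theorem rst_neg (f : G → ℤ) : rst (-f) = rst f := by
  ext h
  rw [mem_rst, mem_rst]
  constructor
  · intro h1 g
    have h2 := h1 g
    rw [Pi.neg_apply, Pi.neg_apply, neg_inj] at h2
    exact h2
  · intro h1 g
    rw [Pi.neg_apply, Pi.neg_apply, h1]

/-- Relations between sign functions that are invariant under a subgroup. -/
theorem rl_inv (hcomm : ∀ g, c * g = g * c) (hc2 : c * c = 1) (R : Subgroup G) (hcR : c ∉ R)
    (D : (G → ℤ) → M) (hneg : ∀ f, IsSign c f → R ≤ rst f → D (-f) = -D f)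
    (h4 : ∀ f : Fin 4 → G → ℤ, (∀ k, IsSign c (f k) ∧ R ≤ rst (f k)) →
      (∀ x, ∑ k, f k x = 0) → ∑ k, D (f k) = 0) :
    Rl D fun f => IsSign c f ∧ R ≤ rst f := by
  classical
  intro ι _ m f hf hr
  let _ : Fintype (G ⧸ R) := Fintype.ofFinite _
  let c' : G ⧸ R → G ⧸ R := fun q => c • q
  have hc' : ∀ g : G, c' (g : G ⧸ R) = ((c * g : G) : G ⧸ R) := fun g => rfl
  let D' : (G ⧸ R → ℤ) → M := fun F => D fun g => F g
  have hpull : ∀ F : G ⧸ R → ℤ, Sg c' F → IsSign c (fun g : G => F g) ∧
      R ≤ rst fun g : G => F g := by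
    intro F hF
    refine ⟨⟨fun g => hF.1 _, fun g => hF.2 (g : G ⧸ R)⟩, fun r hr => ?_⟩
    rw [mem_rst]
    intro g
    congr 1
    rw [QuotientGroup.eq, mul_inv_rev, inv_mul_cancel_right]
    exact R.inv_mem hr
  let F : ι → G ⧸ R → ℤ := fun i q => f i q.out
  have hF : ∀ i (g : G), F i (g : G ⧸ R) = f i g := by
    intro i g
    obtain ⟨r, hr⟩ := QuotientGroup.mk_out_eq_mul R g
    change f i (Quotient.out (g : G ⧸ R)) = f i g
    rw [hr]
    exact (hf i).2 r.2 g
  have h1 := exchX c' (fun q => by
      change c • c • q = q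
      rw [← mul_smul, hc2, one_smul]) (fun q => by
      obtain ⟨g, rfl⟩ := QuotientGroup.mk_surjective q
      rw [hc', ne_eq, QuotientGroup.eq]
      intro h
      have h1 : (c * g)⁻¹ * g = c⁻¹ := by
        rw [hcomm]
        group
      rw [h1] at h
      exact hcR ((Subgroup.inv_mem_iff R).1 h)) D' (fun F hF => hneg _ (hpull F hF).1 (hpull F hF).2)
    (fun F hF hs => h4 (fun k g => F k g) (fun k => hpull _ (hF k)) fun g => hs g) m F
    (fun i => ⟨fun q => (hf i).1.sign _, fun q => by
      obtain ⟨g, rfl⟩ := QuotientGroup.mk_surjective q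
      rw [hc', hF, hF]
      exact (hf i).1.odd g⟩) (fun q => by
      obtain ⟨g, rfl⟩ := QuotientGroup.mk_surjective q
      rw [Finset.sum_congr rfl fun i _ => by rw [hF]]
      exact hr g) inferInstance
  rw [← h1]
  refine Finset.sum_congr rfl fun i _ => ?_
  congr 1
  change D (f i) = D fun g => F i g
  congr 1
  funext g
  exact (hF i g).symm

end group

end

end Pool.Agent.R937.HZ
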