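import Pool.Agent.R937.HZ.Rel
import Pool.Agent.Y137.SF.Sep
import Pool.Agent.R937.BR.Proj

/-!
# Separation of sign functions with stabilizers of index at most six
-/

set_option autoImplicit false
set_option linter.unusedSectionVars false
set_option linter.unusedVariables false

namespace Pool.Agent.R937.HZ

open Pool.Agent.W495.TA (IsSign)
open Pool.Agent.Y137.SF (rst mem_rst)

noncomputable section

section group

variable {G : Type} [Group G] [Fintype G] (c : G)

/-- The element `c` does not stabilize a sign function. -/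
theorem c_notMem {f : G → ℤ} (hf : IsSign c f) : c ∉ rst f := by
  intro h
  have h1 := h 1
  have h2 : f (c * 1) = -f 1 := hf.odd 1
  rw [one_mul] at h1
  rw [mul_one] at h2
  rcases hf.sign 1 with h3 | h3 <;> omega

variable (hcomm : ∀ g, c * g = g * c) (hc2 : c * c = 1)

/-- The subgroup generated by a subgroup and `c`. -/
def VV (R : Subgroup G) : Subgroup G where
  carrier := {v | v ∈ R ∨ c * v ∈ R}
  one_mem' := Or.inl R.one_mem
  mul_mem' := by
    rintro a b (ha | ha) (hb | hb)
    · exact Or.inl (R.mul_mem ha hb)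
    · right
      have : c * (a * b) = a * (c * b) := by rw [← mul_assoc, hcomm a, mul_assoc]
      rw [this]
      exact R.mul_mem ha hb
    · right
      rw [← mul_assoc]
      exact R.mul_mem ha hb
    · left
      have : a * b = (c * a) * (c * b) := by
        rw [hcomm a, mul_assoc, ← mul_assoc c c b, hc2, one_mul]
      rw [this]
      exact R.mul_mem ha hb
  inv_mem' := by
    rintro a (ha | ha)
    · exact Or.inl (R.inv_mem ha)
    · right
      have h1 := R.inv_mem ha
      rw [mul_inv_rev, inv_eq_of_mul_eq_one_left hc2, ← hcomm] at h1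
      exact h1

theorem mem_VV (R : Subgroup G) (v : G) : v ∈ VV c hcomm hc2 R ↔ v ∈ R ∨ c * v ∈ R := Iff.rfl

theorem le_VV (R : Subgroup G) : R ≤ VV c hcomm hc2 R := fun v hv => Or.inl hv

theorem c_mem_VV (R : Subgroup G) : c ∈ VV c hcomm hc2 R := Or.inr (by rw [hc2]; exact R.one_mem)

theorem relIndex_VV (R : Subgroup G) (hcR : c ∉ R) : R.relIndex (VV c hcomm hc2 R) = 2 := by
  rw [Subgroup.relIndex_eq_two_iff]
  refine ⟨c, c_mem_VV c hcomm hc2 R, fun b hb => ?_⟩
  rcases hb with h | h
  · right
    exact ⟨h, fun h' => hcR ((R.mul_mem_cancel_left h).1 h')⟩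
  · left
    refine ⟨by rw [← hcomm]; exact h, fun h' => hcR ((R.mul_mem_cancel_right h').1 h)⟩

theorem index_VV (R : Subgroup G) (hcR : c ∉ R) : R.index = 2 * (VV c hcomm hc2 R).index := by
  rw [← relIndex_VV c hcomm hc2 R hcR]
  exact (Subgroup.relIndex_mul_index (le_VV c hcomm hc2 R)).symm

include hcomm hc2 in
/-- The index of the stabilizer of a sign function is two, four or six, if it is at most six. -/
theorem index_cases {f : G → ℤ} (hf : IsSign c f) (h : (rst f).index ≤ 6) :
    (rst f).index = 2 ∨ (rst f).index = 4 ∨ (rst f).index = 6 := by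
  have h1 := index_VV c hcomm hc2 (rst f) (c_notMem c hf)
  have h2 : (VV c hcomm hc2 (rst f)).index ≠ 0 := Subgroup.index_ne_zero_of_finite
  omega

end group

section chars

variable {G : Type} [Group G] [Fintype G]

open Classical in
/-- The character with a given kernel. -/
def chi (K : Subgroup G) : G → ℤ := fun g => if g ∈ K then 1 else -1

theorem chi_sign (K : Subgroup G) (g : G) : chi K g = 1 ∨ chi K g = -1 := by
  classical
  unfold chi
  split_ifs
  · exact Or.inl rfl
  · exact Or.inr rfl

theorem chi_of_mem {K : Subgroup G} {g : G} (h : g ∈ K) : chi K g = 1 := by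
  classical
  unfold chi
  rw [if_pos h]

theorem chi_of_notMem {K : Subgroup G} {g : G} (h : g ∉ K) : chi K g = -1 := by
  classical
  unfold chi
  rw [if_neg h]

theorem chi_eq_one {K : Subgroup G} {g : G} : chi K g = 1 ↔ g ∈ K := by
  constructor
  · intro h
    by_contra h'
    rw [chi_of_notMem h'] at h
    norm_num at h
  · exact chi_of_mem

theorem chi_mul {K : Subgroup G} (hK : K.index = 2) (g h : G) : chi K (g * h) = chi K g * chi K h := by
  have h1 := Subgroup.mul_mem_iff_of_index_two hK (a := g) (b := h)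
  by_cases hg : g ∈ K <;> by_cases hh : h ∈ K
  · rw [chi_of_mem hg, chi_of_mem hh, chi_of_mem (h1.2 (by tauto)), one_mul]
  · rw [chi_of_mem hg, chi_of_notMem hh, chi_of_notMem (fun h' => by tauto), one_mul]
  · rw [chi_of_notMem hg, chi_of_mem hh, chi_of_notMem (fun h' => by tauto), mul_one]
  · rw [chi_of_notMem hg, chi_of_notMem hh, chi_of_mem (h1.2 (by tauto))]
    norm_num

/-- The character as a homomorphism. -/
def chiHom (L : Type) [CommRing L] (K : Subgroup G) (hK : K.index = 2) : G →* L where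
  toFun g := (chi K g : L)
  map_one' := by rw [chi_of_mem K.one_mem, Int.cast_one]
  map_mul' g h := by rw [chi_mul hK, Int.cast_mul]

variable (c : G)

/-- The subgroups of index two that do not contain `c`. -/
abbrev K2 : Type := {K : Subgroup G // K.index = 2 ∧ c ∉ K}

instance : Finite (K2 c) := Subtype.finite
instance : Fintype (K2 c) := Fintype.ofFinite _

variable {c}

theorem rst_chi {K : Subgroup G} (hK : K.index = 2) : rst (chi K) = K := by
  ext h
  rw [mem_rst]
  constructor
  · intro h1
    have h2 := h1 1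
    rw [one_mul, chi_of_mem K.one_mem, chi_eq_one] at h2
    exact h2
  · intro h1 g
    rw [chi_mul hK, chi_of_mem h1, mul_one]

theorem isSign_chi (K : K2 c) : IsSign c (chi K.1) := by
  refine ⟨chi_sign K.1, fun g => ?_⟩
  rw [smul_eq_mul, chi_mul K.2.1, chi_of_notMem K.2.2, neg_one_mul]

/-- The characters are linearly independent. -/
theorem chi_indep (L : Type) [CommRing L] [IsDomain L] (h2 : (-1 : L) ≠ 1) (b : K2 c → L)
    (h : ∀ g, ∑ K, b K * (chi K.1 g : L) = 0) (K : K2 c) : b K = 0 := by
  have h1 := (linearIndependent_monoidHom G L).comp (fun K : K2 c => chiHom L K.1 K.2.1) (by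
    intro K K' h
    refine Subtype.ext (Subgroup.ext fun g => ?_)
    have h3 : (chi K.1 g : L) = (chi K'.1 g : L) := DFunLike.congr_fun h g
    by_cases hg : g ∈ K.1 <;> by_cases hg' : g ∈ K'.1
    · simp [hg, hg']
    · rw [chi_of_mem hg, chi_of_notMem hg', Int.cast_neg, Int.cast_one] at h3
      exact absurd h3.symm h2
    · rw [chi_of_notMem hg, chi_of_mem hg', Int.cast_neg, Int.cast_one] at h3
      exact absurd h3 h2
    · simp [hg, hg'])
  rw [Fintype.linearIndependent_iff] at h1
  refine h1 b ?_ K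
  funext g
  rw [Finset.sum_apply, Pi.zero_apply, ← h g]
  rfl

theorem three_zmod : ((3 : ℤ) : ZMod 3) = 0 := by decide

theorem dvd_of_sum (b : K2 c → ℤ) (z : G → ℤ) (h : ∀ g, ∑ K, b K * chi K.1 g = 3 * z g) (K : K2 c) :
    (3 : ℤ) ∣ b K := by
  have : Fact (Nat.Prime 3) := ⟨Nat.prime_three⟩
  have h1 := chi_indep (c := c) (ZMod 3) (by decide) (fun K => (b K : ZMod 3)) (fun g => by
    have h2 := congrArg (Int.cast : ℤ → ZMod 3) (h g)
    rw [Int.cast_sum, Int.cast_mul] at h2
    have h3 : ((3 : ℤ) : ZMod 3) = 0 := three_zmod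
    rw [h3, zero_mul] at h2
    rw [← h2]
    exact Finset.sum_congr rfl fun K _ => by rw [Int.cast_mul]) K
  exact (ZMod.intCast_zmod_eq_zero_iff_dvd (b K) 3).1 h1

end chars

section two

variable {G M : Type} [Group G] [Fintype G] [AddCommGroup M] {c : G}

theorem eq_chi {f : G → ℤ} (h : (rst f).index = 2) (hf : IsSign c f) :
    f = chi (rst f) ∨ f = -chi (rst f) := by
  have h1 : ∀ g, g ∈ rst f → f g = f 1 := fun g hg => by
    have := hg 1
    rwa [one_mul] at this
  have hc := c_notMem c hf
  have h2 : ∀ g, g ∉ rst f → f g = -f 1 := fun g hg => by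
    have h3 : c * g ∈ rst f := by
      rw [Subgroup.mul_mem_iff_of_index_two h]
      tauto
    have h4 := h1 _ h3
    have h5 : f (c * g) = -f g := hf.odd g
    omega
  rcases hf.sign 1 with h3 | h3
  · left
    funext g
    by_cases hg : g ∈ rst f
    · rw [h1 g hg, h3, chi_of_mem hg]
    · rw [h2 g hg, h3, chi_of_notMem hg]
  · right
    funext g
    rw [Pi.neg_apply]
    by_cases hg : g ∈ rst f
    · rw [h1 g hg, h3, chi_of_mem hg]
    · rw [h2 g hg, h3, chi_of_notMem hg]

/-- The relations between characters. -/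
theorem rl_two (D : (G → ℤ) → M)
    (hneg : ∀ f, IsSign c f → (rst f).index = 2 → D (-f) = -D f) :
    Rl D fun f => IsSign c f ∧ (rst f).index = 2 := by
  classical
  intro ι _ m f hf hr
  let K : ι → K2 c := fun i => ⟨rst (f i), (hf i).2, c_notMem c (hf i).1⟩
  let s : ι → ℤ := fun i => if f i = chi (rst (f i)) then 1 else -1
  have hs : ∀ i g, f i g = s i * chi (K i).1 g := by
    intro i g
    change f i g = (if f i = chi (rst (f i)) then 1 else -1) * chi (rst (f i)) g
    rcases eq_chi (hf i).2 (hf i).1 with h | h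
    · rw [if_pos h, one_mul]
      exact congrFun h g
    · by_cases h' : f i = chi (rst (f i))
      · rw [if_pos h', one_mul]
        exact congrFun h' g
      · rw [if_neg h', neg_one_mul]
        exact congrFun h g
  have hD : ∀ i, D (f i) = s i • D (chi (K i).1) := by
    intro i
    change D (f i) = (if f i = chi (rst (f i)) then (1 : ℤ) else -1) • D (chi (rst (f i)))
    rcases eq_chi (hf i).2 (hf i).1 with h | h
    · rw [if_pos h, one_smul, ← h]
    · by_cases h' : f i = chi (rst (f i))
      · rw [if_pos h', one_smul, ← h']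
      · rw [if_neg h', neg_smul, one_smul]
        have h1 := hneg (chi (rst (f i))) (isSign_chi (K i)) (by
          rw [rst_chi (hf i).2]
          exact (hf i).2)
        rw [← h1, ← h]
  have h1 := chi_indep (c := c) ℤ (by norm_num) (fun K' => ∑ i with K i = K', m i * s i) (fun g => by
    have h2 : ∑ i, m i * f i g = ∑ K', (∑ i with K i = K', m i * s i) * chi K'.1 g := by
      rw [← Finset.sum_fiberwise (s := Finset.univ) (g := K) (f := fun i => m i * f i g)]
      refine Finset.sum_congr rfl fun K' _ => ?_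
      rw [Finset.sum_mul]
      refine Finset.sum_congr rfl fun i hi => ?_
      rw [hs, (Finset.mem_filter.1 hi).2, mul_assoc]
    rw [hr] at h2
    rw [h2]
    refine Finset.sum_congr rfl fun K' _ => ?_
    rw [Int.cast_id])
  have h2 : ∑ i, m i • D (f i) = ∑ K', (∑ i with K i = K', m i * s i) • D (chi K'.1) := by
    rw [← Finset.sum_fiberwise (s := Finset.univ) (g := K) (f := fun i => m i • D (f i))]
    refine Finset.sum_congr rfl fun K' _ => ?_
    rw [Finset.sum_smul]
    refine Finset.sum_congr rfl fun i hi => ?_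
    rw [hD, (Finset.mem_filter.1 hi).2, mul_smul]
  rw [h2]
  refine Finset.sum_eq_zero fun K' _ => ?_
  have h3 := h1 K'
  beta_reduce at h3
  rw [h3, zero_smul]

end two

section sep

variable {G : Type} [Group G] [Fintype G] (c : G) (hcomm : ∀ g, c * g = g * c) (hc2 : c * c = 1)

include hcomm hc2

open Classical in
theorem sum_zero (f : G → ℤ) (hf : IsSign c f) (N : Subgroup G) [hNn : N.Normal]
    (hcK : c ∈ N ⊔ rst f) (g : G) : ∑ n : G, (if n ∈ N then f (g * n) else 0) = 0 := by
  have hfc : ∀ x, f (c * x) = -f x := fun x => hf.odd x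
  obtain ⟨n, hn, h, hh, hnh⟩ := Subgroup.mem_sup_of_normal_left.1 hcK
  let e : G ≃ G := (Equiv.mulLeft c).trans (Equiv.mulRight h⁻¹)
  have he : ∀ m, e m = c * m * h⁻¹ := fun m => rfl
  have h1 : ∑ m : G, (if m ∈ N then f (g * m) else 0) =
      -∑ m : G, (if m ∈ N then f (g * m) else 0) := by
    conv_lhs => rw [← Equiv.sum_comp e]
    rw [← Finset.sum_neg_distrib]
    refine Finset.sum_congr rfl fun m _ => ?_
    rw [he]
    have h2 : c * m * h⁻¹ = n * (h * m * h⁻¹) := by
      rw [← hnh]
      group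
    have h3 : c * m * h⁻¹ ∈ N ↔ m ∈ N := by
      rw [h2, N.mul_mem_cancel_left hn]
      constructor
      · intro h4
        have h5 := hNn.conj_mem _ h4 h⁻¹
        have h6 : h⁻¹ * (h * m * h⁻¹) * h⁻¹⁻¹ = m := by group
        rwa [h6] at h5
      · intro h4
        exact hNn.conj_mem _ h4 h
    have h4 : f (g * (c * m * h⁻¹)) = -f (g * m) := by
      rw [← mul_assoc, (rst f).inv_mem hh, ← mul_assoc, ← hcomm g, mul_assoc, hfc]
    by_cases hm : m ∈ N
    · rw [if_pos hm, if_pos (h3.2 hm), h4]
    · rw [if_neg hm, if_neg (fun h' => hm (h3.1 h')), neg_zero]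
  omega

/-- A subgroup of index three contains `c`. -/
theorem c_mem_of_index_three (K : Subgroup G) (hK : K.index = 3) : c ∈ K := by
  classical
  by_contra hcK
  have h1 := index_VV c hcomm hc2 K hcK
  omega

open Classical in
/-- The sums over the cosets of a normal subgroup that is not contained in the stabilizer are
multiples of a character. -/
theorem split (f : G → ℤ) (hf : IsSign c f) (hidx : (rst f).index ≤ 6) (N : Subgroup G)
    [hNn : N.Normal] (hN : ¬ N ≤ rst f) : ∃ y : K2 c → ℤ, (∀ K, ¬ N ≤ K.1 → y K = 0) ∧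
      ∀ g, 3 * ∑ n : G, (if n ∈ N then f (g * n) else 0) =
        (Nat.card N : ℤ) * ∑ K, y K * chi K.1 g := by
  have hfc : ∀ x, f (c * x) = -f x := fun x => hf.odd x
  by_cases hcK : c ∈ N ⊔ rst f
  · refine ⟨0, fun _ _ => rfl, fun g => ?_⟩
    rw [sum_zero c hcomm hc2 f hf N hcK g]
    simp
  have h1 := Subgroup.relIndex_mul_index (le_sup_right : rst f ≤ N ⊔ rst f)
  have h2 : (N ⊔ rst f).index ≠ 1 := by
    rw [ne_eq, Subgroup.index_eq_one]
    intro h
    exact hcK (by rw [h]; exact Subgroup.mem_top _)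
  have h3 : (rst f).relIndex (N ⊔ rst f) ≠ 1 := by
    rw [ne_eq, Subgroup.relIndex_eq_one]
    intro h
    exact hN (le_sup_left.trans h)
  have h4 : (N ⊔ rst f).index ≠ 0 := Subgroup.index_ne_zero_of_finite
  have h5 : (rst f).relIndex (N ⊔ rst f) ≠ 0 := fun h => by
    rw [h, zero_mul] at h1
    exact Subgroup.index_ne_zero_of_finite h1.symm
  have h6 : (N ⊔ rst f).index ≠ 3 := fun h => hcK (c_mem_of_index_three c hcomm hc2 _ h)
  by_cases h46 : (rst f).index ≤ 4
  · refine ⟨0, fun _ _ => rfl, fun g => ?_⟩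
    have h7 := Pool.Agent.Y137.SF.sep c hcomm hc2 f hf h46 N hN g
    rw [h7]
    simp
  have h7 : (N ⊔ rst f).index = 2 ∧ (rst f).relIndex (N ⊔ rst f) = 3 := by
    have a2 : 2 ≤ (rst f).relIndex (N ⊔ rst f) := by omega
    have a3 : (rst f).relIndex (N ⊔ rst f) * (N ⊔ rst f).index ≤ 6 := by
      rw [h1]
      exact hidx
    have a4 : (N ⊔ rst f).index ≤ 3 := by nlinarith
    have a5 : (N ⊔ rst f).index = 2 := by omega
    rw [a5] at h1 a3
    exact ⟨a5, by omega⟩
  have h8 : ((rst f).subgroupOf N).index = 3 := by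
    change (rst f).relIndex N = 3
    have e1 := Subgroup.relIndex_mul_relIndex (N ⊓ rst f) N (N ⊔ rst f) inf_le_left le_sup_left
    have e2 := Subgroup.relIndex_mul_relIndex (N ⊓ rst f) (rst f) (N ⊔ rst f) inf_le_right
      le_sup_right
    have e3 : N.relIndex (N ⊔ rst f) = N.relIndex (rst f) := by
      rw [sup_comm]
      exact Subgroup.relIndex_sup_right (rst f) N
    have e4 : (N ⊓ rst f).relIndex (rst f) = N.relIndex (rst f) := Subgroup.inf_relIndex_right N (rst f)
    have e5 : (N ⊓ rst f).relIndex N = (rst f).relIndex N := by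
      rw [inf_comm]
      exact Subgroup.inf_relIndex_right (rst f) N
    have e6 : N.relIndex (rst f) ≠ 0 :=
      Subgroup.index_ne_zero_of_finite (H := N.subgroupOf (rst f))
    rw [e3, e5] at e1
    rw [e4, h7.2, ← e1, mul_comm] at e2
    exact (Nat.eq_of_mul_eq_mul_right (Nat.pos_of_ne_zero e6) e2).symm
  have h9 : Nat.card N = 3 * Nat.card ((rst f).subgroupOf N) := by
    rw [← h8]
    exact (Subgroup.index_mul_card _).symm
  have hc : c ∉ N ⊔ rst f := hcK
  -- the sums
  set Φ : G → ℤ := fun g => ∑ n : G, (if n ∈ N then f (g * n) else 0) with hΦ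
  have hΦg : ∀ g, Φ g = ∑ n : G, (if n ∈ N then f (g * n) else 0) := fun g => rfl
  have hΦN : ∀ g, ∀ k ∈ N, Φ (g * k) = Φ g := by
    intro g k hk
    rw [hΦg, hΦg, ← Equiv.sum_comp (Equiv.mulLeft k) fun n : G => if n ∈ N then f (g * n) else 0]
    refine Finset.sum_congr rfl fun n _ => ?_
    rw [Equiv.coe_mulLeft]
    by_cases hn : n ∈ N
    · rw [if_pos hn, if_pos (N.mul_mem hk hn), mul_assoc]
    · rw [if_neg hn, if_neg fun h => hn ((N.mul_mem_cancel_left hk).1 h)]
  have hΦR : ∀ g, ∀ r ∈ rst f, Φ (g * r) = Φ g := by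
    intro g r hr
    rw [hΦg, hΦg, ← Equiv.sum_comp (MulAut.conj r).toEquiv
      fun n : G => if n ∈ N then f (g * n) else 0]
    refine Finset.sum_congr rfl fun n _ => ?_
    have e1 : (MulAut.conj r).toEquiv n = r * n * r⁻¹ := rfl
    rw [e1]
    have e2 : r * n * r⁻¹ ∈ N ↔ n ∈ N := by
      constructor
      · intro h
        have h' := hNn.conj_mem _ h r⁻¹
        have h6 : r⁻¹ * (r * n * r⁻¹) * r⁻¹⁻¹ = n := by group
        rwa [h6] at h'
      · intro h
        exact hNn.conj_mem _ h r
    by_cases hn : n ∈ N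
    · rw [if_pos hn, if_pos (e2.2 hn), ← mul_assoc g (r * n), (rst f).inv_mem hr, mul_assoc g r n]
    · rw [if_neg hn, if_neg fun h => hn (e2.1 h)]
  have hΦK : ∀ g, ∀ k ∈ N ⊔ rst f, Φ (g * k) = Φ g := by
    intro g k hk
    obtain ⟨n, hn, r, hr, rfl⟩ := Subgroup.mem_sup_of_normal_left.1 hk
    rw [← mul_assoc, hΦR _ r hr, hΦN _ n hn]
  have hΦc : ∀ g, Φ (c * g) = -Φ g := by
    intro g
    rw [hΦg, hΦg, ← Finset.sum_neg_distrib]
    refine Finset.sum_congr rfl fun n _ => ?_
    by_cases hn : n ∈ N
    · rw [if_pos hn, if_pos hn, mul_assoc, hfc]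
    · rw [if_neg hn, if_neg hn, neg_zero]
  have hΦ1 : ∀ g, Φ g = Φ 1 * chi (N ⊔ rst f) g := by
    intro g
    by_cases hg : g ∈ N ⊔ rst f
    · rw [chi_of_mem hg, mul_one]
      have := hΦK 1 g hg
      rwa [one_mul] at this
    · rw [chi_of_notMem hg, mul_neg_one]
      have h10 : c * g ∈ N ⊔ rst f := by
        rw [Subgroup.mul_mem_iff_of_index_two h7.1]
        tauto
      have := hΦK 1 _ h10
      rw [one_mul, hΦc] at this
      omega
  obtain ⟨y, hy⟩ : (Nat.card ((rst f).subgroupOf N) : ℤ) ∣ Φ 1 := by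
    have h10 := Pool.Agent.R937.BR.dvd_sum ((rst f).subgroupOf N) (fun n : N => f n) (by
      intro a a' ha'
      exact Subgroup.mem_subgroupOf.1 ha' a)
    have h11 : Φ 1 = ∑ n : N, f n := by
      rw [hΦg, ← Finset.sum_filter]
      simp only [one_mul]
      rw [← Finset.sum_subtype (Finset.univ.filter fun n => n ∈ N) (by simp) fun n => f n]
    rw [h11]
    exact h10
  let K0 : K2 c := ⟨N ⊔ rst f, h7.1, hc⟩
  refine ⟨fun K => if K = K0 then y else 0, fun K hK => ?_, fun g => ?_⟩
  · refine if_neg fun h => hK ?_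
    rw [h]
    exact le_sup_left
  · have h10 : ∑ K : K2 c, (if K = K0 then y else 0) * chi K.1 g = y * chi K0.1 g := by
      rw [Finset.sum_eq_single K0]
      · rw [if_pos rfl]
      · intro K _ hK
        rw [if_neg hK, zero_mul]
      · intro h
        exact absurd (Finset.mem_univ _) h
    rw [h10, h9, ← hΦg, hΦ1, hy]
    push_cast
    change 3 * (_ * y * chi (N ⊔ rst f) g) = 3 * _ * (y * chi (N ⊔ rst f) g)
    ring

end sep

end

end Pool.Agent.R937.HZ
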